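import Pool.Agent.H96.CV.Basic

/-! DS: all real relations. -/

set_option autoImplicit false

open NumberField NumberField.InfinitePlace Complex Filter Topology MeasureTheory

namespace Pool.Agent.H96.CV

open Pool.Agent.H37.CV Pool.Agent.H28.RC Pool.Agent.H25.HK

section
variable (K : Type) [Field K] [NumberField K]

theorem nm_qi (q : ℕ) : nm (qi K q) = (q : ℝ) ^ Module.finrank ℚ K := by
  unfold nm qi
  rw [Ideal.absNorm_span_natCast, RingOfIntegers.rank]
  push_cast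
  rfl

theorem one_le_discr : 1 ≤ |(discr K : ℝ)| := by
  have h := NumberField.discr_ne_zero K
  have h1 : 1 ≤ |discr K| := Int.one_le_abs h
  exact_mod_cast h1

theorem one_le_cnd {q : ℕ} (hq : 1 ≤ q) : 1 ≤ cnd K (qi K q) := by
  unfold cnd
  rw [nm_qi]
  have h1 := one_le_discr K
  have h2 : (1 : ℝ) ≤ (q : ℝ) ^ Module.finrank ℚ K := one_le_pow₀ (by exact_mod_cast hq)
  nlinarith

end

theorem min_one_le_rpow {x θ : ℝ} (hx : 0 < x) (h0 : 0 ≤ θ) (h1 : θ ≤ 1) : min 1 x ≤ x ^ θ := by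
  rcases le_total 1 x with h | h
  · exact (min_le_left _ _).trans (Real.one_le_rpow h h0)
  · refine (min_le_right _ _).trans ?_
    conv_lhs => rw [← Real.rpow_one x]
    exact Real.rpow_le_rpow_of_exponent_ge hx h h1

theorem pf_DS (hDT : Pool.Agent.H37.CV.T_DT) (hDV : Pool.Agent.H37.CV.T_DV)
    (hZK : Pool.Agent.H37.CV.T_ZK) : Pool.Agent.H37.CV.T_DS := by
  classical
  intro K _ _ _ ε₁ ε hε₁ hε₁' hε
  set n : ℕ := Module.finrank ℚ K with hn
  set e : ℝ := min ε 1 / (4 * ((n : ℝ) + 2)) with he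
  have hn0 : (0 : ℝ) ≤ n := Nat.cast_nonneg n
  have hm1 : 0 < min ε 1 := lt_min hε one_pos
  have he0 : 0 < e := by positivity
  have he1 : 2 * e ≤ 1 := by
    rw [he]
    have : min ε 1 ≤ 1 := min_le_right _ _
    rw [← mul_div_assoc, div_le_one (by positivity)]
    linarith
  have heε : 2 * e * ((n : ℝ) + 2) ≤ ε / 2 := by
    have h1 : 2 * e * ((n : ℝ) + 2) = min ε 1 / 2 := by
      rw [he]
      field_simp
      ring
    rw [h1]
    have : min ε 1 ≤ ε := min_le_left _ _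
    linarith
  obtain ⟨C₁, hC₁⟩ := hDT K 1
  obtain ⟨C₂, hC₂1, -, hC₂⟩ := (hDV K).1 e he0
  obtain ⟨E, -, hE, -⟩ := hZK (Kp K)
  set f : NI (Kp K) → ℝ := fun y => nm y.1 ^ (-(1 + 2 * e)) with hf
  have hfs : Summable f := by
    have h1 := (hE ((1 + 2 * e : ℝ) : ℂ) (by rw [Complex.ofReal_re]; linarith)).1
    refine h1.congr fun y => ?_
    rw [← Complex.ofReal_neg, ← Complex.ofReal_cpow (nm_pos y.2).le, Complex.norm_real,
      Real.norm_of_nonneg (Real.rpow_nonneg (nm_pos y.2).le _)]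
  have hf0 : ∀ y, 0 ≤ f y := fun y => Real.rpow_nonneg (nm_pos y.2).le _
  set F : NI (Kp K) × NI (Kp K) → ℝ := fun z => f z.1 * f z.2 with hF
  have hFs : Summable F := hfs.mul_of_nonneg hfs hf0 hf0
  have hF0 : ∀ z, 0 ≤ F z := fun z => mul_nonneg (hf0 _) (hf0 _)
  set B : ℝ := |(discr K : ℝ)| with hB
  have hB1 : 1 ≤ B := one_le_discr K
  set c : ℝ := 1 + Real.log B + ((n : ℝ) + 1) * (8 / ε) with hc
  have hlB : 0 ≤ Real.log B := Real.log_nonneg hB1
  have hc0 : 0 ≤ c := by positivity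
  set D : ℝ := |C₁| * C₂ ^ 2 * B ^ (2 * e) * c ^ 4 with hD
  have hD0 : 0 ≤ D := by positivity
  refine ⟨D * ∑' z, F z, fun q hq X hX => ?_⟩
  have hq1 : (1 : ℝ) ≤ q := by exact_mod_cast hq.one_le
  have hq0 : (0 : ℝ) < q := by linarith
  set Q : ℝ := cnd K (qi K q) with hQ
  have hQ1 : 1 ≤ Q := one_le_cnd K hq.one_le
  have hQe : Q = B * (q : ℝ) ^ n := by
    rw [hQ]
    unfold cnd
    rw [nm_qi]
  set M : ℝ := (q : ℝ) ^ (1 - 2 * ε₁) with hM
  have hM1 : 1 ≤ M := Real.one_le_rpow hq1 (by linarith)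
  have hMq : M ≤ q := by
    conv_rhs => rw [← Real.rpow_one (q : ℝ)]
    exact Real.rpow_le_rpow_of_exponent_le hq1 (by linarith)
  have hlq : 0 ≤ Real.log q := Real.log_nonneg hq1
  have hlq2 : Real.log q ≤ (8 / ε) * (q : ℝ) ^ (ε / 8) := by
    have h1 := Real.log_le_rpow_div hq0.le (show 0 < ε / 8 by positivity)
    refine h1.trans (le_of_eq ?_)
    field_simp
  have hqe : 1 ≤ (q : ℝ) ^ (ε / 8) := Real.one_le_rpow hq1 (by positivity)
  set L : ℝ := 1 + Real.log Q + Real.log M with hL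
  have hL0 : 0 ≤ L := by
    have := Real.log_nonneg hQ1
    have := Real.log_nonneg hM1
    linarith
  have hLc : L ≤ c * (q : ℝ) ^ (ε / 8) := by
    have h1 : Real.log Q = Real.log B + n * Real.log q := by
      rw [hQe, Real.log_mul (by positivity) (by positivity), Real.log_pow]
    have h2 : Real.log M ≤ Real.log q := Real.log_le_log (by linarith) hMq
    calc L ≤ (1 + Real.log B) + (n + 1) * Real.log q := by
          rw [hL, h1]
          linarith
      _ ≤ (1 + Real.log B) * (q : ℝ) ^ (ε / 8) +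
          (n + 1) * ((8 / ε) * (q : ℝ) ^ (ε / 8)) := by
          refine add_le_add ?_ (mul_le_mul_of_nonneg_left hlq2 (by positivity))
          exact le_mul_of_one_le_right (by positivity) hqe
      _ = _ := by rw [hc]; ring
  have hL4 : L ^ 4 ≤ c ^ 4 * (q : ℝ) ^ (ε / 2) := by
    have h1 : L ^ 4 ≤ (c * (q : ℝ) ^ (ε / 8)) ^ 4 := pow_le_pow_left₀ hL0 hLc 4
    refine h1.trans (le_of_eq ?_)
    rw [mul_pow, ← Real.rpow_natCast ((q : ℝ) ^ (ε / 8)), ← Real.rpow_mul hq0.le]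
    congr 2
    push_cast
    ring
  have hQM : (Q * M ^ 2) ^ (2 * e) ≤ B ^ (2 * e) * (q : ℝ) ^ (ε / 2) := by
    have h1 : Q * M ^ 2 ≤ B * (q : ℝ) ^ (n + 2) := by
      rw [hQe, pow_add]
      have : M ^ 2 ≤ (q : ℝ) ^ 2 := pow_le_pow_left₀ (by linarith) hMq 2
      calc B * (q : ℝ) ^ n * M ^ 2 ≤ B * (q : ℝ) ^ n * (q : ℝ) ^ 2 := by gcongr
        _ = _ := by ring
    calc (Q * M ^ 2) ^ (2 * e) ≤ (B * (q : ℝ) ^ (n + 2)) ^ (2 * e) :=
          Real.rpow_le_rpow (by positivity) h1 (by positivity)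
      _ = B ^ (2 * e) * (q : ℝ) ^ (((n : ℝ) + 2) * (2 * e)) := by
          rw [Real.mul_rpow (by positivity) (by positivity), ← Real.rpow_natCast (q : ℝ),
            ← Real.rpow_mul hq0.le]
          push_cast
          rfl
      _ ≤ B ^ (2 * e) * (q : ℝ) ^ (ε / 2) := by
          refine mul_le_mul_of_nonneg_left ?_ (by positivity)
          refine Real.rpow_le_rpow_of_exponent_le hq1 ?_
          linarith
  -- the choice of the pairs
  have hch : ∀ p ∈ X, ∃ z : NI (Kp K) × NI (Kp K), Real2 p z.1.1 z.2.1 := by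
    intro p hp
    obtain ⟨-, y₁, y₂, h⟩ := hX p hp
    exact ⟨(⟨y₁, h.1⟩, ⟨y₂, h.2.1⟩), h⟩
  have hne : Nonempty (NI (Kp K) × NI (Kp K)) := ⟨(⟨⊤, top_ne_bot⟩, ⟨⊤, top_ne_bot⟩)⟩
  choose! g hg using hch
  have hinj : Set.InjOn g X := by
    intro p hp p' hp' h
    have h1 := hg p hp
    have h2 := hg p' hp'
    rw [← h] at h2
    exact Prod.ext (h1.2.2.1.trans h2.2.2.1.symm) (h1.2.2.2.1.trans h2.2.2.2.1.symm)
  have hterm : ∀ p ∈ X, ‖Dd (qi K q) Q M p.1 p.2‖ ≤ D * (q : ℝ) ^ ε * F (g p) := by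
    intro p hp
    obtain ⟨a1, a2, a3, a4, a5, a6⟩ := hg p hp
    have hy1 := one_le_nm a1
    have hy2 := one_le_nm a2
    set Y1 : ℝ := nm (g p).1.1 with hY1
    set Y2 : ℝ := nm (g p).2.1 with hY2
    have hI0 : p.1 ≠ ⊥ := by
      intro h0
      rw [h0] at a5
      have : nm (⊥ : Ideal (𝓞 K)) = 0 := by unfold nm; simp
      rw [this] at a5
      have h2 : 0 < Y1 ^ 2 := pow_pos (by linarith) 2
      linarith
    have hJ0 : p.2 ≠ ⊥ := by
      intro h0
      rw [h0] at a6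
      have : nm (⊥ : Ideal (𝓞 K)) = 0 := by unfold nm; simp
      rw [this] at a6
      have h2 : 0 < Y2 ^ 2 := pow_pos (by linarith) 2
      linarith
    have h1 := hC₁ (qi K q) Q M p.1 p.2 hQ1 hM1 hI0 hJ0 (hX p hp).1
    set W : ℝ := Y1 * Y2 with hW
    have hW1 : 1 ≤ W := one_le_mul_of_one_le_of_one_le hy1 hy2
    have hW0 : 0 < W := by linarith
    have hnn : nm p.1 * nm p.2 = W ^ 2 := by rw [a5, a6, hW]; ring
    have hpf : (2 : ℝ) ^ ((pf p.1).card + (pf p.2).card) ≤ C₂ ^ 2 * W ^ (2 * e) := by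
      rw [pow_add]
      have b1 := hC₂ p.1 hI0
      have b2 := hC₂ p.2 hJ0
      have b3 : nm p.1 ^ e * nm p.2 ^ e = W ^ (2 * e) := by
        rw [← Real.mul_rpow (nm_pos hI0).le (nm_pos hJ0).le, hnn, ← Real.rpow_natCast,
          ← Real.rpow_mul hW0.le]
        push_cast
        rfl
      calc (2 : ℝ) ^ (pf p.1).card * 2 ^ (pf p.2).card
          ≤ (C₂ * nm p.1 ^ e) * (C₂ * nm p.2 ^ e) :=
            mul_le_mul b1 b2 (by positivity) (le_trans (by positivity) b1)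
        _ = C₂ ^ 2 * (nm p.1 ^ e * nm p.2 ^ e) := by ring
        _ = _ := by rw [b3]
    have hmin : min 1 ((Q * M ^ 2 / (nm p.1 * nm p.2)) ^ 1) ≤
        (Q * M ^ 2) ^ (2 * e) * W ^ (-(4 * e)) := by
      rw [pow_one, hnn]
      refine (min_one_le_rpow (by positivity) (by positivity) he1).trans (le_of_eq ?_)
      rw [Real.div_rpow (by positivity) (by positivity), div_eq_mul_inv,
        ← Real.rpow_natCast W, ← Real.rpow_mul hW0.le, ← Real.rpow_neg hW0.le]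
      congr 2
      push_cast
      ring
    have hww : (nm p.1 * nm p.2) ^ (-(1 / 2) : ℝ) = W ^ (-1 : ℝ) := by
      rw [hnn, ← Real.rpow_natCast, ← Real.rpow_mul hW0.le]
      congr 1
      push_cast
      ring
    have hmin0 : 0 ≤ min 1 ((Q * M ^ 2 / (nm p.1 * nm p.2)) ^ 1) := by
      refine le_min zero_le_one ?_
      rw [hnn]
      positivity
    rw [hww] at h1
    have hWF : F (g p) = W ^ (-1 : ℝ) * W ^ (2 * e) * W ^ (-(4 * e)) := by
      rw [← Real.rpow_add hW0, ← Real.rpow_add hW0]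
      simp only [hF, hf]
      rw [← Real.mul_rpow (by linarith) (by linarith)]
      congr 1
      ring
    have hq2 : (q : ℝ) ^ (ε / 2) * (q : ℝ) ^ (ε / 2) = (q : ℝ) ^ ε := by
      rw [← Real.rpow_add hq0]
      congr 1
      ring
    calc ‖Dd (qi K q) Q M p.1 p.2‖
        ≤ C₁ * W ^ (-1 : ℝ) * 2 ^ ((pf p.1).card + (pf p.2).card) * L ^ 4 *
          min 1 ((Q * M ^ 2 / (nm p.1 * nm p.2)) ^ 1) := h1
      _ ≤ |C₁| * W ^ (-1 : ℝ) * (C₂ ^ 2 * W ^ (2 * e)) * (c ^ 4 * (q : ℝ) ^ (ε / 2)) *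
          ((B ^ (2 * e) * (q : ℝ) ^ (ε / 2)) * W ^ (-(4 * e))) := by
          have c1 : C₁ * W ^ (-1 : ℝ) ≤ |C₁| * W ^ (-1 : ℝ) := by
            gcongr
            exact le_abs_self _
          have c2 : min 1 ((Q * M ^ 2 / (nm p.1 * nm p.2)) ^ 1) ≤
              (B ^ (2 * e) * (q : ℝ) ^ (ε / 2)) * W ^ (-(4 * e)) :=
            hmin.trans (mul_le_mul_of_nonneg_right hQM (by positivity))
          gcongr
      _ = D * ((q : ℝ) ^ (ε / 2) * (q : ℝ) ^ (ε / 2)) *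
          (W ^ (-1 : ℝ) * W ^ (2 * e) * W ^ (-(4 * e))) := by rw [hD]; ring
      _ = D * (q : ℝ) ^ ε * F (g p) := by rw [hq2, hWF]
  calc ∑ p ∈ X, ‖Dd (qi K q) Q M p.1 p.2‖ ≤ ∑ p ∈ X, D * (q : ℝ) ^ ε * F (g p) :=
        Finset.sum_le_sum hterm
    _ = D * (q : ℝ) ^ ε * ∑ z ∈ X.image g, F z := by
        rw [Finset.sum_image hinj, Finset.mul_sum]
    _ ≤ D * (q : ℝ) ^ ε * ∑' z, F z := by
        refine mul_le_mul_of_nonneg_left ?_ (by positivity)
        exact hFs.sum_le_tsum _ fun z _ => hF0 z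
    _ = D * (∑' z, F z) * (q : ℝ) ^ ε := by ring

end Pool.Agent.H96.CV
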