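import Pool.Agent.H96.CV.LS
import Pool.Agent.H96.CV.DS

/-! DA: the diagonal term. -/

set_option autoImplicit false

open NumberField NumberField.InfinitePlace Complex Filter Topology MeasureTheory

namespace Pool.Agent.H96.CV

open Pool.Agent.H37.CV Pool.Agent.H28.RC Pool.Agent.H25.HK

section
variable {K : Type} [Field K] [NumberField K]

theorem nm_top : nm (⊤ : Ideal (𝓞 K)) = 1 := by
  unfold nm
  simp

theorem pf_top : pf (⊤ : Ideal (𝓞 K)) = ∅ := by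
  have h : {P : PrI K | (⊤ : Ideal (𝓞 K)) ≤ P.1} = ∅ := by
    ext P
    simp only [Set.mem_ofPred_eq, Set.mem_empty_iff_false, iff_false, top_le_iff]
    exact P.2.1.ne_top
  unfold pf
  split_ifs with h1
  · rw [Set.Finite.toFinset_eq_empty]
    exact h
  · rfl

end

/-- the diagonal term in terms of the constants -/
theorem diag_bound (hCX : Pool.Agent.H37.CV.T_CX) (hCM : Pool.Agent.H37.CV.T_CM)
    (hCB : Pool.Agent.H37.CV.T_CB) (K : Type) [Field K] [NumberField K] (m : Ideal (𝓞 K))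
    (Q M E C₃ Λ : ℝ) (C₀ : ℂ) (hQ : 1 ≤ Q) (hM : 1 ≤ M) (hE : 0 ≤ E)
    (hSm : ∀ Z : ℝ, Q / M ^ 2 ≤ Z → Z ≤ Q * M ^ 2 →
      ‖Sm m Z - (((rho K / 2 * Real.log Z : ℝ) : ℂ) + C₀)‖ ≤ E)
    (hC₃ : ∑ P ∈ PM K M, Real.log (np P) / (np P - 1) ^ 2 ≤ C₃)
    (hΛ : ∑ S ∈ DM K M, Real.log (nS np S) / fS np S ≤ Λ) :
    (2 * Dd m Q M ⊤ ⊤).re ≤ rho K * (Real.log Q / GS np (PM K M) M +
      (2 / GS np (PM K M) M ^ 2 * Λ + 2 / GS np (PM K M) M * C₃)) +
      2 * |C₀.re| / GS np (PM K M) M + 2 * (GS np (PM K M) M ^ 3 * E) := by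
  classical
  obtain ⟨-, hG1, hX⟩ := hCX (PrI K) np (PM K M) M two_le_np hM
  obtain ⟨m1, m2⟩ := hCM (PrI K) np (PM K M) M two_le_np hM
  obtain ⟨hB1, hB2⟩ := hCB (PrI K) np (PM K M) ∅ ∅ M two_le_np hM (Finset.disjoint_empty_left _)
  simp only [Finset.card_empty, add_zero, pow_zero, one_mul] at hB2
  set G : ℝ := GS np (PM K M) M with hG
  have hG0 : 0 < G := by linarith
  have hrho : 0 ≤ rho K := (dedekindZeta_residue_pos K).le
  set a : Finset (PrI K) → Finset (PrI K) → ℝ := fun S T =>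
    xw K M S * xw K M T * (gg np ∅ ∅ S T / (nS np S * nS np T)) with ha
  set Z : Finset (PrI K) → Finset (PrI K) → ℝ := fun S T =>
    Q * gg np ∅ ∅ S T ^ 2 / (nS np S * nS np T) with hZ
  have hsumA : ∑ S ∈ DM K M, ∑ T ∈ DM K M, a S T = G⁻¹ := m1
  have hsumL : ∑ S ∈ DM K M, ∑ T ∈ DM K M, a S T *
      Real.log (gg np ∅ ∅ S T ^ 2 / (nS np S * nS np T)) ≤
      2 / G ^ 2 * Λ + 2 / G * C₃ := by
    refine le_trans m2 (add_le_add ?_ ?_)
    · exact mul_le_mul_of_nonneg_left hΛ (by positivity)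
    · exact mul_le_mul_of_nonneg_left hC₃ (by positivity)
  have hDd : (2 * Dd m Q M ⊤ ⊤).re = 2 * ∑ S ∈ DM K M, ∑ T ∈ DM K M, a S T * (Sm m (Z S T)).re := by
    have h1 : Dd m Q M ⊤ ⊤ = ∑ S ∈ DM K M, ∑ T ∈ DM K M, ((a S T : ℝ) : ℂ) * Sm m (Z S T) := by
      unfold Dd
      rw [nm_top, pf_top]
      simp only [mul_one, Real.one_rpow, Complex.ofReal_one, one_mul]
      rfl
    rw [h1, Complex.mul_re, Complex.re_ofNat, Complex.im_ofNat, zero_mul, sub_zero,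
      Complex.re_sum]
    congr 1
    refine Finset.sum_congr rfl fun S _ => ?_
    rw [Complex.re_sum]
    refine Finset.sum_congr rfl fun T _ => ?_
    rw [Complex.re_ofReal_mul]
  have hterm : ∀ S ∈ DM K M, ∀ T ∈ DM K M, a S T * (Sm m (Z S T)).re ≤
      a S T * (rho K / 2 * Real.log Q + C₀.re) +
      rho K / 2 * (a S T * Real.log (gg np ∅ ∅ S T ^ 2 / (nS np S * nS np T))) +
      (gg np ∅ ∅ S T / (nS np S * nS np T)) * E := by
    intro S hS T hT
    obtain ⟨hSs, hSM⟩ := mem_DM.1 hS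
    obtain ⟨hTs, hTM⟩ := mem_DM.1 hT
    obtain ⟨g1, g2⟩ := hB1 S hS T hT
    have hns := nS_pos S
    have hnt := nS_pos T
    have hnn : 0 < nS np S * nS np T := mul_pos hns hnt
    have hgp : 0 < gg np ∅ ∅ S T := by linarith
    have hZ1 : Q / M ^ 2 ≤ Z S T := by
      simp only [hZ]
      have h1 : nS np S * nS np T ≤ M ^ 2 := by
        rw [pow_two]
        exact mul_le_mul hSM hTM hnt.le (by linarith)
      have h2 : (1 : ℝ) ≤ gg np ∅ ∅ S T ^ 2 := one_le_pow₀ g1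
      have h3 : Q ≤ Q * gg np ∅ ∅ S T ^ 2 := le_mul_of_one_le_right (by linarith) h2
      exact div_le_div₀ (by positivity) h3 hnn h1
    have hZ2 : Z S T ≤ Q * M ^ 2 := by
      simp only [hZ]
      rw [mul_div_assoc]
      exact mul_le_mul_of_nonneg_left g2 (by linarith)
    have h1 := hSm (Z S T) hZ1 hZ2
    have h2 : |(Sm m (Z S T)).re - (rho K / 2 * Real.log (Z S T) + C₀.re)| ≤ E := by
      refine le_trans ?_ h1
      have h3 := Complex.abs_re_le_norm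
        (Sm m (Z S T) - (((rho K / 2 * Real.log (Z S T) : ℝ) : ℂ) + C₀))
      rwa [Complex.sub_re, Complex.add_re, Complex.ofReal_re] at h3
    have hlog : Real.log (Z S T) = Real.log Q +
        Real.log (gg np ∅ ∅ S T ^ 2 / (nS np S * nS np T)) := by
      simp only [hZ]
      rw [mul_div_assoc, Real.log_mul (by positivity) (by positivity)]
    have hx1 : |xw K M S| ≤ 1 := hX S hSs
    have hx2 : |xw K M T| ≤ 1 := hX T hTs
    have hgq : 0 ≤ gg np ∅ ∅ S T / (nS np S * nS np T) := by positivity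
    have habs : |a S T| ≤ gg np ∅ ∅ S T / (nS np S * nS np T) := by
      simp only [ha]
      rw [abs_mul, abs_mul, abs_of_nonneg hgq]
      have h5 : |xw K M S| * |xw K M T| ≤ 1 := by
        have := mul_le_mul hx1 hx2 (abs_nonneg _) zero_le_one
        simpa using this
      calc |xw K M S| * |xw K M T| * (gg np ∅ ∅ S T / (nS np S * nS np T))
          ≤ 1 * (gg np ∅ ∅ S T / (nS np S * nS np T)) := mul_le_mul_of_nonneg_right h5 hgq
        _ = _ := one_mul _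
    have h6 : a S T * ((Sm m (Z S T)).re - (rho K / 2 * Real.log (Z S T) + C₀.re)) ≤
        (gg np ∅ ∅ S T / (nS np S * nS np T)) * E := by
      refine (le_abs_self _).trans ?_
      rw [abs_mul]
      exact mul_le_mul habs h2 (abs_nonneg _) hgq
    have h7 : a S T * (Sm m (Z S T)).re =
        a S T * (rho K / 2 * Real.log Q + C₀.re) +
        rho K / 2 * (a S T * Real.log (gg np ∅ ∅ S T ^ 2 / (nS np S * nS np T))) +
        a S T * ((Sm m (Z S T)).re - (rho K / 2 * Real.log (Z S T) + C₀.re)) := by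
      rw [hlog]
      ring
    rw [h7]
    linarith
  have hsum := Finset.sum_le_sum fun S hS => Finset.sum_le_sum fun T hT => hterm S hS T hT
  have hsplit : ∑ S ∈ DM K M, ∑ T ∈ DM K M, (a S T * (rho K / 2 * Real.log Q + C₀.re) +
      rho K / 2 * (a S T * Real.log (gg np ∅ ∅ S T ^ 2 / (nS np S * nS np T))) +
      (gg np ∅ ∅ S T / (nS np S * nS np T)) * E) =
      G⁻¹ * (rho K / 2 * Real.log Q + C₀.re) +
      rho K / 2 * (∑ S ∈ DM K M, ∑ T ∈ DM K M, a S T *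
        Real.log (gg np ∅ ∅ S T ^ 2 / (nS np S * nS np T))) +
      (∑ S ∈ DM K M, ∑ T ∈ DM K M, gg np ∅ ∅ S T / (nS np S * nS np T)) * E := by
    simp only [Finset.sum_add_distrib, ← Finset.sum_mul, ← Finset.mul_sum, hsumA]
  rw [hsplit] at hsum
  have hE' : (∑ S ∈ DM K M, ∑ T ∈ DM K M, gg np ∅ ∅ S T / (nS np S * nS np T)) * E ≤
      G ^ 3 * E := mul_le_mul_of_nonneg_right hB2 hE
  have hC0 : G⁻¹ * C₀.re ≤ |C₀.re| / G := by
    rw [div_eq_inv_mul]
    exact mul_le_mul_of_nonneg_left (le_abs_self _) (by positivity)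
  have hL' := mul_le_mul_of_nonneg_left hsumL (show 0 ≤ rho K / 2 by positivity)
  rw [hDd]
  have e1 : G⁻¹ * (rho K / 2 * Real.log Q + C₀.re) =
      rho K / 2 * (Real.log Q / G) + G⁻¹ * C₀.re := by
    rw [div_eq_inv_mul (Real.log Q) G]
    ring
  rw [e1] at hsum
  have e2 : 2 * |C₀.re| / G = 2 * (|C₀.re| / G) := by ring
  rw [e2]
  calc 2 * ∑ S ∈ DM K M, ∑ T ∈ DM K M, a S T * (Sm m (Z S T)).re
      ≤ 2 * (rho K / 2 * (Real.log Q / G) + |C₀.re| / G +
        rho K / 2 * (2 / G ^ 2 * Λ + 2 / G * C₃) + G ^ 3 * E) := by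
        refine mul_le_mul_of_nonneg_left ?_ (by norm_num)
        linarith
    _ = _ := by ring

theorem quad_le {u ε : ℝ} (hε : ε < 1) : 2 * u - (1 - ε) * u ^ 2 ≤ 1 / (1 - ε) := by
  have h : 0 < 1 - ε := by linarith
  rw [le_div_iff₀ h]
  nlinarith [sq_nonneg ((1 - ε) * u - 1)]

theorem pf_DA (hCX : Pool.Agent.H37.CV.T_CX) (hCM : Pool.Agent.H37.CV.T_CM)
    (hSQ : Pool.Agent.H37.CV.T_SQ) (hGL : Pool.Agent.H37.CV.T_GL)
    (hGU : Pool.Agent.H37.CV.T_GU) (hLS : Pool.Agent.H37.CV.T_LS)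
    (hCB : Pool.Agent.H37.CV.T_CB) : Pool.Agent.H37.CV.T_DA := by
  classical
  intro K _ _ _ ε₁ η hε₁ hε₁' hη
  set n : ℕ := Module.finrank ℚ K with hn
  have hn2 : 2 ≤ n := by
    have h1 : n = 2 * nrComplexPlaces K := IsTotallyComplex.finrank K
    have h2 : 0 < n := Module.finrank_pos
    omega
  have hnr : (2 : ℝ) ≤ n := by exact_mod_cast hn2
  have hd : 0 < 1 - 2 * ε₁ := by linarith
  set V : ℝ := 1 + n / (1 - 2 * ε₁) with hV
  have hV0 : 0 < V := by positivity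
  set ε : ℝ := η / (2 * V + η) with hε
  have hε0 : 0 < ε := by positivity
  have hε1 : ε < 1 := by
    rw [hε, div_lt_one (by positivity)]
    linarith
  have h1ε : 0 < 1 - ε := by linarith
  have hVε : V / (1 - ε) = V + η / 2 := by
    rw [div_eq_iff h1ε.ne', hε]
    field_simp
    ring
  have hrho : 0 < rho K := dedekindZeta_residue_pos K
  obtain ⟨M₁, hM₁, hG1⟩ := hGL K ε hε0
  obtain ⟨M₂, hM₂, hL1⟩ := hLS K ε hε0
  obtain ⟨CU, -, hU1, hU2⟩ := hGU K
  obtain ⟨C₀, ⟨CS, hCS⟩, -⟩ := hSQ K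
  set B : ℝ := |(discr K : ℝ)| with hB
  have hB1 : 1 ≤ B := one_le_discr K
  have hlB : 0 ≤ Real.log B := Real.log_nonneg hB1
  -- constants
  set c₆ : ℝ := 1 / (1 - ε) * Real.log B + (2 * rho K * |CU| + 2 * |C₀.re|) / ((1 - ε) * rho K)
    with hc₆
  have hc₆0 : 0 ≤ c₆ := by positivity
  set c₇ : ℝ := 2 * (|CU| * (1 + 12 / ε₁)) ^ 3 * (|CS| * (1 + (1 + Real.log B + 2 * (n + 2))))
    with hc₇
  -- limits
  have t1 : Tendsto (fun q : ℕ => (q : ℝ)) atTop atTop := tendsto_natCast_atTop_atTop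
  have t2 : Tendsto (fun q : ℕ => (q : ℝ) ^ (1 - 2 * ε₁)) atTop atTop :=
    (tendsto_rpow_atTop hd).comp t1
  have t3 : Tendsto (fun q : ℕ => c₆ / ((1 - 2 * ε₁) * Real.log q)) atTop (𝓝 0) :=
    Tendsto.div_atTop tendsto_const_nhds ((Real.tendsto_log_atTop.comp t1).const_mul_atTop hd)
  have t4 : Tendsto (fun q : ℕ => c₇ * (q : ℝ) ^ (-(ε₁ / 4))) atTop (𝓝 0) := by
    have := ((tendsto_rpow_neg_atTop (show 0 < ε₁ / 4 by positivity)).comp t1).const_mul c₇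
    simpa using this
  have ev := (((t2.eventually_ge_atTop (max M₁ M₂)).and (t3.eventually_lt_const
    (show (0 : ℝ) < η / 4 by positivity))).and (t4.eventually_lt_const
    (show (0 : ℝ) < η / 4 by positivity))).and (t1.eventually_ge_atTop 2)
  obtain ⟨q₀, hq₀⟩ := eventually_atTop.1 ev
  refine ⟨q₀, fun q hq hqq => ?_⟩
  obtain ⟨⟨⟨e1, e2⟩, e3⟩, e4⟩ := hq₀ q hqq
  have hqr1 : (1 : ℝ) ≤ q := by linarith
  have hqr0 : (0 : ℝ) < q := by linarith
  set M : ℝ := (q : ℝ) ^ (1 - 2 * ε₁) with hM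
  have hMM1 : M₁ ≤ M := (le_max_left _ _).trans e1
  have hMM2 : M₂ ≤ M := (le_max_right _ _).trans e1
  have hM1 : 1 ≤ M := hM₁.trans hMM1
  have hMq : M ≤ q := by
    conv_rhs => rw [← Real.rpow_one (q : ℝ)]
    exact Real.rpow_le_rpow_of_exponent_le hqr1 (by linarith)
  set Q : ℝ := cnd K (qi K q) with hQ
  have hQ1 : 1 ≤ Q := one_le_cnd K hq.one_le
  have hQe : Q = B * (q : ℝ) ^ n := by
    rw [hQ]
    unfold cnd
    rw [nm_qi]
  set L : ℝ := Real.log M with hL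
  have hlq : 0 < Real.log q := Real.log_pos (by linarith)
  have hLq : L = (1 - 2 * ε₁) * Real.log q := Real.log_rpow hqr0 _
  have hL0 : 0 < L := by rw [hLq]; positivity
  have hLlq : L ≤ Real.log q := Real.log_le_log (by linarith) hMq
  have hlQ : Real.log Q = Real.log B + n * Real.log q := by
    rw [hQe, Real.log_mul (by positivity) (by positivity), Real.log_pow]
  set G : ℝ := GS np (PM K M) M with hG
  have hGl : (1 - ε) * rho K * L ≤ G := hG1 M hMM1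
  have hGp : 0 < G := lt_of_lt_of_le (by positivity) hGl
  have hGu : G ≤ |CU| * (1 + Real.log q) := by
    refine (hU1 M hM1).trans ?_
    calc CU * (1 + Real.log M) ≤ |CU| * (1 + Real.log M) := by
          gcongr
          exact le_abs_self _
      _ ≤ |CU| * (1 + Real.log q) := by gcongr
  have hlq12 : 1 + Real.log q ≤ (1 + 12 / ε₁) * (q : ℝ) ^ (ε₁ / 12) := by
    have h1 := Real.log_le_rpow_div hqr0.le (show 0 < ε₁ / 12 by positivity)
    have h2 : 1 ≤ (q : ℝ) ^ (ε₁ / 12) := Real.one_le_rpow hqr1 (by positivity)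
    have h3 : (q : ℝ) ^ (ε₁ / 12) / (ε₁ / 12) = (12 / ε₁) * (q : ℝ) ^ (ε₁ / 12) := by
      field_simp
    rw [h3] at h1
    linarith
  have hG3 : G ^ 3 ≤ (|CU| * (1 + 12 / ε₁)) ^ 3 * (q : ℝ) ^ (ε₁ / 4) := by
    have h1 : G ≤ (|CU| * (1 + 12 / ε₁)) * (q : ℝ) ^ (ε₁ / 12) := by
      refine hGu.trans ?_
      rw [mul_assoc]
      exact mul_le_mul_of_nonneg_left hlq12 (abs_nonneg _)
    refine (pow_le_pow_left₀ hGp.le h1 3).trans (le_of_eq ?_)
    rw [mul_pow _ ((q : ℝ) ^ (ε₁ / 12)), ← Real.rpow_natCast ((q : ℝ) ^ (ε₁ / 12)),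
      ← Real.rpow_mul hqr0.le]
    congr 2
    push_cast
    ring
  set E : ℝ := |CS| * (1 + (1 + Real.log B + 2 * (n + 2))) * (q : ℝ) ^ (-(ε₁ / 2)) with hE
  have hE0 : 0 ≤ E := by positivity
  have hlow : (q : ℝ) ^ (4 * ε₁) ≤ Q / M ^ 2 := by
    rw [le_div_iff₀ (by positivity), hQe, hM, ← Real.rpow_natCast ((q : ℝ) ^ (1 - 2 * ε₁)),
      ← Real.rpow_mul hqr0.le, ← Real.rpow_add hqr0]
    calc (q : ℝ) ^ (4 * ε₁ + (1 - 2 * ε₁) * ((2 : ℕ) : ℝ)) ≤ (q : ℝ) ^ (n : ℝ) := by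
          refine Real.rpow_le_rpow_of_exponent_le hqr1 ?_
          push_cast
          linarith
      _ = (q : ℝ) ^ n := Real.rpow_natCast _ _
      _ ≤ B * (q : ℝ) ^ n := le_mul_of_one_le_left (by positivity) hB1
  have hup : Q * M ^ 2 ≤ B * (q : ℝ) ^ (n + 2) := by
    rw [hQe, pow_add]
    have : M ^ 2 ≤ (q : ℝ) ^ 2 := pow_le_pow_left₀ (by linarith) hMq 2
    calc B * (q : ℝ) ^ n * M ^ 2 ≤ B * (q : ℝ) ^ n * (q : ℝ) ^ 2 := by gcongr
      _ = _ := by ring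
  have hSm : ∀ Z : ℝ, Q / M ^ 2 ≤ Z → Z ≤ Q * M ^ 2 →
      ‖Sm (qi K q) Z - (((rho K / 2 * Real.log Z : ℝ) : ℂ) + C₀)‖ ≤ E := by
    intro Z hZ1 hZ2
    have hZq : (q : ℝ) ^ (4 * ε₁) ≤ Z := hlow.trans hZ1
    have hZ11 : 1 ≤ Z := le_trans (Real.one_le_rpow hqr1 (by positivity)) hZq
    refine (hCS q hq Z hZ11).trans ?_
    have b1 : Z ^ (-(1 / 8) : ℝ) ≤ (q : ℝ) ^ (-(ε₁ / 2)) := by
      have h1 := Real.rpow_le_rpow_of_nonpos (by positivity) hZq (show (-(1 / 8) : ℝ) ≤ 0 by norm_num)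
      refine h1.trans (le_of_eq ?_)
      rw [← Real.rpow_mul hqr0.le]
      congr 1
      ring
    have b2 : Real.log Z ≤ Real.log B + (n + 2) * Real.log q := by
      have h1 := Real.log_le_log (by linarith) (hZ2.trans hup)
      rw [Real.log_mul (by positivity) (by positivity), Real.log_pow] at h1
      push_cast at h1
      exact h1
    have b3 : Real.log q ≤ 2 * (q : ℝ) ^ (1 / 2 : ℝ) := by
      have h1 := Real.log_le_rpow_div hqr0.le (show (0 : ℝ) < 1 / 2 by norm_num)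
      linarith
    have b4 : 1 ≤ (q : ℝ) ^ (1 / 2 : ℝ) := Real.one_le_rpow hqr1 (by norm_num)
    have b5 : 1 + Real.log Z ≤ (1 + Real.log B + 2 * (n + 2)) * (q : ℝ) ^ (1 / 2 : ℝ) := by
      have h1 : (1 + Real.log B) ≤ (1 + Real.log B) * (q : ℝ) ^ (1 / 2 : ℝ) :=
        le_mul_of_one_le_right (by positivity) b4
      have h2 : ((n : ℝ) + 2) * Real.log q ≤ (n + 2) * (2 * (q : ℝ) ^ (1 / 2 : ℝ)) :=
        mul_le_mul_of_nonneg_left b3 (by positivity)
      linarith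
    have b6 : (1 + Real.log Z) / q ≤ (1 + Real.log B + 2 * (n + 2)) * (q : ℝ) ^ (-(ε₁ / 2)) := by
      rw [div_le_iff₀ hqr0]
      refine b5.trans ?_
      rw [mul_assoc]
      refine mul_le_mul_of_nonneg_left ?_ (by positivity)
      conv_rhs => rw [← Real.rpow_one (q : ℝ)]
      rw [← Real.rpow_mul hqr0.le, one_mul, ← Real.rpow_add hqr0]
      exact Real.rpow_le_rpow_of_exponent_le hqr1 (by linarith)
    have b7 : 0 ≤ (1 + Real.log Z) / q := by
      have := Real.log_nonneg hZ11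
      positivity
    have b8 : 0 ≤ Z ^ (-(1 / 8) : ℝ) := by positivity
    calc CS * (Z ^ (-(1 / 8) : ℝ) + (1 + Real.log Z) / q)
        ≤ |CS| * (Z ^ (-(1 / 8) : ℝ) + (1 + Real.log Z) / q) :=
          mul_le_mul_of_nonneg_right (le_abs_self _) (by positivity)
      _ ≤ |CS| * ((q : ℝ) ^ (-(ε₁ / 2)) +
          (1 + Real.log B + 2 * (n + 2)) * (q : ℝ) ^ (-(ε₁ / 2))) :=
          mul_le_mul_of_nonneg_left (add_le_add b1 b6) (abs_nonneg _)
      _ = E := by rw [hE]; ring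
  have main := diag_bound hCX hCM hCB K (qi K q) Q M E CU
    (G * L - (1 - ε) * rho K * L ^ 2 / 2) C₀ hQ1 hM1 hE0 hSm (hU2 _) (hL1 M hMM2)
  refine main.trans ?_
  -- the main terms
  set u : ℝ := rho K * L / G with hu
  have hu0 : 0 ≤ u := by positivity
  have hu1 : u ≤ 1 / (1 - ε) := by
    rw [hu, div_le_div_iff₀ hGp h1ε]
    linarith
  have p1 : rho K * (Real.log Q / G + (2 / G ^ 2 * (G * L - (1 - ε) * rho K * L ^ 2 / 2) +
      2 / G * CU)) = u * (Real.log Q / L) + (2 * u - (1 - ε) * u ^ 2) + 2 * rho K * CU / G := by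
    rw [hu]
    field_simp
    ring
  have p2 : u * (Real.log Q / L) ≤ 1 / (1 - ε) * (Real.log B / L + n / (1 - 2 * ε₁)) := by
    have h1 : Real.log Q / L = Real.log B / L + n / (1 - 2 * ε₁) := by
      rw [hlQ, add_div]
      congr 1
      rw [hLq]
      field_simp
    rw [h1]
    exact mul_le_mul_of_nonneg_right hu1 (by positivity)
  have p3 := quad_le (u := u) hε1
  have p4 : 2 * rho K * CU / G + 2 * |C₀.re| / G ≤
      (2 * rho K * |CU| + 2 * |C₀.re|) / ((1 - ε) * rho K) / L := by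
    rw [← add_div, div_div]
    have h1 : 2 * rho K * CU ≤ 2 * rho K * |CU| :=
      mul_le_mul_of_nonneg_left (le_abs_self _) (by positivity)
    calc (2 * rho K * CU + 2 * |C₀.re|) / G ≤ (2 * rho K * |CU| + 2 * |C₀.re|) / G := by
          gcongr
      _ ≤ (2 * rho K * |CU| + 2 * |C₀.re|) / ((1 - ε) * rho K * L) := by
          gcongr
  have p5 : 2 * (G ^ 3 * E) ≤ c₇ * (q : ℝ) ^ (-(ε₁ / 4)) := by
    have h1 : G ^ 3 * E ≤ (|CU| * (1 + 12 / ε₁)) ^ 3 * (q : ℝ) ^ (ε₁ / 4) * E :=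
      mul_le_mul_of_nonneg_right hG3 hE0
    have h2 : (q : ℝ) ^ (ε₁ / 4) * (q : ℝ) ^ (-(ε₁ / 2)) = (q : ℝ) ^ (-(ε₁ / 4)) := by
      rw [← Real.rpow_add hqr0]
      congr 1
      ring
    calc 2 * (G ^ 3 * E) ≤ 2 * ((|CU| * (1 + 12 / ε₁)) ^ 3 * (q : ℝ) ^ (ε₁ / 4) * E) := by
          linarith
      _ = c₇ * ((q : ℝ) ^ (ε₁ / 4) * (q : ℝ) ^ (-(ε₁ / 2))) := by
          rw [hc₇, hE]
          ring
      _ = _ := by rw [h2]
  have p6 : c₆ / L < η / 4 := by
    rw [hLq]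
    exact e2
  have p7 : c₆ / L = 1 / (1 - ε) * (Real.log B / L) +
      (2 * rho K * |CU| + 2 * |C₀.re|) / ((1 - ε) * rho K) / L := by
    rw [hc₆]
    ring
  have p8 : 1 / (1 - ε) * (n / (1 - 2 * ε₁)) + 1 / (1 - ε) = V / (1 - ε) := by
    rw [hV]
    ring
  have p9 : 1 / (1 - ε) * (Real.log B / L + n / (1 - 2 * ε₁)) =
      1 / (1 - ε) * (Real.log B / L) + 1 / (1 - ε) * (n / (1 - 2 * ε₁)) := by ring
  rw [p1]
  linarith

end Pool.Agent.H96.CV
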