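import Pool.Agent.H96.CV.DA
import Pool.Agent.H81.CV.GL

/-! DE: the terms with a small relation. -/

set_option autoImplicit false

open NumberField NumberField.InfinitePlace Complex Filter Topology MeasureTheory

namespace Pool.Agent.H96.CV

open Pool.Agent.H37.CV Pool.Agent.H28.RC Pool.Agent.H25.HK

theorem pf_nonempty {K : Type} [Field K] [NumberField K] {I : Ideal (𝓞 K)} (hI : I ≠ ⊥)
    (hI' : I ≠ ⊤) : (pf I).Nonempty := by
  obtain ⟨P, hP, hIP⟩ := Ideal.exists_le_maximal I hI'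
  have hP0 : P ≠ ⊥ := by
    rintro rfl
    exact hI (le_bot_iff.1 hIP)
  exact ⟨⟨P, hP.isPrime, hP0⟩, (Pool.Agent.H81.CV.mem_pf hI _).2 hIP⟩

/-- the terms with a relation in terms of the constants -/
theorem off_bound (hCX : Pool.Agent.H37.CV.T_CX) (hCT : Pool.Agent.H37.CV.T_CT)
    (hCB : Pool.Agent.H37.CV.T_CB) (hGC : Pool.Agent.H37.CV.T_GC) (K : Type) [Field K]
    [NumberField K] (m I J : Ideal (𝓞 K))
    (Q M E D w : ℝ) (C₀ : ℂ) (hI : I ≠ ⊥) (hJ : J ≠ ⊥) (hI' : I ≠ ⊤) (hJ' : J ≠ ⊤)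
    (hIJ : I ⊔ J = ⊤) (hw : w = nm I * nm J) (hwM : w ≤ M) (hQ : 1 ≤ Q) (hM : 1 ≤ M) (hE : 0 ≤ E)
    (hSm : ∀ Z : ℝ, Q / (M ^ 2 * w) ≤ Z → Z ≤ Q * M ^ 2 →
      ‖Sm m Z - (((rho K / 2 * Real.log Z : ℝ) : ℂ) + C₀)‖ ≤ E)
    (hD1 : GS np (PM K M) M - GS np (PM K M) (M / nS np (pf I)) ≤ D)
    (hD2 : GS np (PM K M) M - GS np (PM K M) (M / nS np (pf J)) ≤ D) :
    ‖Dd m Q M I J‖ ≤ w ^ (-(1 / 2) : ℝ) * 2 ^ ((pf I).card + (pf J).card) *
      ((‖(((rho K / 2 * (Real.log Q - Real.log w) : ℝ) : ℂ) + C₀)‖ +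
        rho K / 2 * (8 * (Real.log M + Real.log (nS np (pf I)) + Real.log (nS np (pf J))))) * D /
          GS np (PM K M) M ^ 2 + GS np (PM K M) M ^ 3 * E) := by
  classical
  have hI1 := one_le_nm hI
  have hJ1 := one_le_nm hJ
  have hw1 : 1 ≤ w := by rw [hw]; exact one_le_mul_of_one_le_of_one_le hI1 hJ1
  have hw0 : 0 < w := by linarith
  have hR1 : pf I ⊆ PM K M := by
    intro P hP
    refine mem_PM.2 ?_
    have h1 : I ≤ P.1 := (Pool.Agent.H81.CV.mem_pf hI _).1 hP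
    have h2 : np P ≤ nm I := by
      unfold np nm
      have h3 : Ideal.absNorm P.1 ∣ Ideal.absNorm I := Ideal.absNorm_dvd_absNorm_of_le h1
      have h4 : Ideal.absNorm I ≠ 0 := fun h => hI (Ideal.absNorm_eq_zero_iff.1 h)
      exact_mod_cast Nat.le_of_dvd (Nat.pos_of_ne_zero h4) h3
    have h3 : nm I ≤ w := by rw [hw]; exact le_mul_of_one_le_right (by linarith) hJ1
    linarith
  have hR2 : pf J ⊆ PM K M := by
    intro P hP
    refine mem_PM.2 ?_
    have h1 : J ≤ P.1 := (Pool.Agent.H81.CV.mem_pf hJ _).1 hP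
    have h2 : np P ≤ nm J := by
      unfold np nm
      have h3 : Ideal.absNorm P.1 ∣ Ideal.absNorm J := Ideal.absNorm_dvd_absNorm_of_le h1
      have h4 : Ideal.absNorm J ≠ 0 := fun h => hJ (Ideal.absNorm_eq_zero_iff.1 h)
      exact_mod_cast Nat.le_of_dvd (Nat.pos_of_ne_zero h4) h3
    have h3 : nm J ≤ w := by rw [hw]; exact le_mul_of_one_le_left (by linarith) hI1
    linarith
  have hdis : Disjoint (pf I) (pf J) := ((hGC K ∅ ∅).2 I J hI hJ hIJ).1
  obtain ⟨-, hG1, hX⟩ := hCX (PrI K) np (PM K M) M two_le_np hM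
  obtain ⟨m1, m2⟩ := hCT (PrI K) np (PM K M) (pf I) (pf J) M D two_le_np hM hR1 hR2
    (pf_nonempty hI hI') (pf_nonempty hJ hJ') hdis hD1 hD2
  obtain ⟨hB1, hB2⟩ := hCB (PrI K) np (PM K M) (pf I) (pf J) M two_le_np hM hdis
  set G : ℝ := GS np (PM K M) M with hG
  set P2 : ℝ := 2 ^ ((pf I).card + (pf J).card) with hP2
  have hG0 : 0 < G := by linarith
  have hrho : 0 ≤ rho K := (dedekindZeta_residue_pos K).le
  set a : Finset (PrI K) → Finset (PrI K) → ℝ := fun S T =>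
    xw K M S * xw K M T * (gg np (pf I) (pf J) S T / (nS np S * nS np T)) with ha
  set Z : Finset (PrI K) → Finset (PrI K) → ℝ := fun S T =>
    Q * gg np (pf I) (pf J) S T ^ 2 / (nS np S * nS np T * w) with hZ
  set Γ : ℂ := (((rho K / 2 * (Real.log Q - Real.log w) : ℝ) : ℂ) + C₀) with hΓ
  set lw : ℝ := Real.log M + Real.log (nS np (pf I)) + Real.log (nS np (pf J)) with hlw
  have hm1 : |∑ S ∈ DM K M, ∑ T ∈ DM K M, a S T| ≤ P2 * D / G ^ 2 := m1
  have hm2 : |∑ S ∈ DM K M, ∑ T ∈ DM K M, a S T *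
      Real.log (gg np (pf I) (pf J) S T ^ 2 / (nS np S * nS np T))| ≤
      8 * P2 * lw * D / G ^ 2 := m2
  have hterm : ∀ S ∈ DM K M, ∀ T ∈ DM K M, ‖((a S T : ℝ) : ℂ) * Sm m (Z S T) -
      (((a S T : ℝ) : ℂ) * Γ + ((rho K / 2 : ℝ) : ℂ) * ((a S T *
        Real.log (gg np (pf I) (pf J) S T ^ 2 / (nS np S * nS np T)) : ℝ) : ℂ))‖ ≤
      (gg np (pf I) (pf J) S T / (nS np S * nS np T)) * E := by
    intro S hS T hT
    obtain ⟨hSs, hSM⟩ := mem_DM.1 hS
    obtain ⟨hTs, hTM⟩ := mem_DM.1 hT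
    obtain ⟨g1, g2⟩ := hB1 S hS T hT
    have hns := nS_pos S
    have hnt := nS_pos T
    have hnn : 0 < nS np S * nS np T := mul_pos hns hnt
    have hgp : 0 < gg np (pf I) (pf J) S T := by linarith
    have hZ1 : Q / (M ^ 2 * w) ≤ Z S T := by
      simp only [hZ]
      have h1 : nS np S * nS np T * w ≤ M ^ 2 * w := by
        refine mul_le_mul_of_nonneg_right ?_ hw0.le
        rw [pow_two]
        exact mul_le_mul hSM hTM hnt.le (by linarith)
      have h2 : (1 : ℝ) ≤ gg np (pf I) (pf J) S T ^ 2 := one_le_pow₀ g1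
      have h3 : Q ≤ Q * gg np (pf I) (pf J) S T ^ 2 := le_mul_of_one_le_right (by linarith) h2
      exact div_le_div₀ (by positivity) h3 (by positivity) h1
    have hZ2 : Z S T ≤ Q * M ^ 2 := by
      simp only [hZ]
      have h1 : Q * gg np (pf I) (pf J) S T ^ 2 / (nS np S * nS np T * w) ≤
          Q * gg np (pf I) (pf J) S T ^ 2 / (nS np S * nS np T) := by
        refine div_le_div_of_nonneg_left (by positivity) hnn ?_
        exact le_mul_of_one_le_right hnn.le hw1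
      refine h1.trans ?_
      rw [mul_div_assoc]
      exact mul_le_mul_of_nonneg_left g2 (by linarith)
    have h1 := hSm (Z S T) hZ1 hZ2
    have hlog : Real.log (Z S T) = Real.log Q - Real.log w +
        Real.log (gg np (pf I) (pf J) S T ^ 2 / (nS np S * nS np T)) := by
      have h2 : Z S T = Q * (gg np (pf I) (pf J) S T ^ 2 / (nS np S * nS np T)) / w := by
        simp only [hZ]
        field_simp
      rw [h2, Real.log_div (by positivity) (by positivity),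
        Real.log_mul (by positivity) (by positivity)]
      ring
    have hx1 : |xw K M S| ≤ 1 := hX S hSs
    have hx2 : |xw K M T| ≤ 1 := hX T hTs
    have hgq : 0 ≤ gg np (pf I) (pf J) S T / (nS np S * nS np T) := by positivity
    have habs : |a S T| ≤ gg np (pf I) (pf J) S T / (nS np S * nS np T) := by
      simp only [ha]
      rw [abs_mul, abs_mul, abs_of_nonneg hgq]
      have h5 : |xw K M S| * |xw K M T| ≤ 1 := by
        have := mul_le_mul hx1 hx2 (abs_nonneg _) zero_le_one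
        simpa using this
      calc |xw K M S| * |xw K M T| * (gg np (pf I) (pf J) S T / (nS np S * nS np T))
          ≤ 1 * (gg np (pf I) (pf J) S T / (nS np S * nS np T)) :=
            mul_le_mul_of_nonneg_right h5 hgq
        _ = _ := one_mul _
    have h6 : ((a S T : ℝ) : ℂ) * Sm m (Z S T) -
      (((a S T : ℝ) : ℂ) * Γ + ((rho K / 2 : ℝ) : ℂ) * ((a S T *
        Real.log (gg np (pf I) (pf J) S T ^ 2 / (nS np S * nS np T)) : ℝ) : ℂ)) =
        ((a S T : ℝ) : ℂ) * (Sm m (Z S T) - (((rho K / 2 * Real.log (Z S T) : ℝ) : ℂ) + C₀)) := by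
      rw [hlog, hΓ]
      push_cast
      ring
    rw [h6, norm_mul, Complex.norm_real, Real.norm_eq_abs]
    exact mul_le_mul habs h1 (norm_nonneg _) hgq
  have hsum : ‖(∑ S ∈ DM K M, ∑ T ∈ DM K M, ((a S T : ℝ) : ℂ) * Sm m (Z S T)) -
      (((∑ S ∈ DM K M, ∑ T ∈ DM K M, a S T : ℝ) : ℂ) * Γ + ((rho K / 2 : ℝ) : ℂ) *
        ((∑ S ∈ DM K M, ∑ T ∈ DM K M, a S T *
          Real.log (gg np (pf I) (pf J) S T ^ 2 / (nS np S * nS np T)) : ℝ) : ℂ))‖ ≤
      P2 * (G ^ 3 * E) := by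
    have h1 : (∑ S ∈ DM K M, ∑ T ∈ DM K M, ((a S T : ℝ) : ℂ) * Sm m (Z S T)) -
      (((∑ S ∈ DM K M, ∑ T ∈ DM K M, a S T : ℝ) : ℂ) * Γ + ((rho K / 2 : ℝ) : ℂ) *
        ((∑ S ∈ DM K M, ∑ T ∈ DM K M, a S T *
          Real.log (gg np (pf I) (pf J) S T ^ 2 / (nS np S * nS np T)) : ℝ) : ℂ)) =
        ∑ S ∈ DM K M, ∑ T ∈ DM K M, (((a S T : ℝ) : ℂ) * Sm m (Z S T) -
      (((a S T : ℝ) : ℂ) * Γ + ((rho K / 2 : ℝ) : ℂ) * ((a S T *
        Real.log (gg np (pf I) (pf J) S T ^ 2 / (nS np S * nS np T)) : ℝ) : ℂ))) := by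
      simp only [Finset.sum_sub_distrib, Finset.sum_add_distrib, ← Finset.sum_mul,
        ← Finset.mul_sum, Complex.ofReal_sum]
    rw [h1]
    refine (norm_sum_le _ _).trans ((Finset.sum_le_sum fun S hS => (norm_sum_le _ _).trans
      (Finset.sum_le_sum fun T hT => hterm S hS T hT)).trans ?_)
    simp only [← Finset.sum_mul]
    rw [← mul_assoc]
    exact mul_le_mul_of_nonneg_right hB2 hE
  have hDd : Dd m Q M I J = ((w ^ (-(1 / 2) : ℝ) : ℝ) : ℂ) *
      ∑ S ∈ DM K M, ∑ T ∈ DM K M, ((a S T : ℝ) : ℂ) * Sm m (Z S T) := by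
    unfold Dd
    rw [← hw]
  have hwp : 0 ≤ w ^ (-(1 / 2) : ℝ) := Real.rpow_nonneg hw0.le _
  rw [hDd, norm_mul, Complex.norm_real, Real.norm_of_nonneg hwp, mul_assoc]
  refine mul_le_mul_of_nonneg_left ?_ hwp
  have h1 := norm_sub_norm_le (∑ S ∈ DM K M, ∑ T ∈ DM K M, ((a S T : ℝ) : ℂ) * Sm m (Z S T))
    (((∑ S ∈ DM K M, ∑ T ∈ DM K M, a S T : ℝ) : ℂ) * Γ + ((rho K / 2 : ℝ) : ℂ) *
        ((∑ S ∈ DM K M, ∑ T ∈ DM K M, a S T *
          Real.log (gg np (pf I) (pf J) S T ^ 2 / (nS np S * nS np T)) : ℝ) : ℂ))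
  have h2 : ‖(((∑ S ∈ DM K M, ∑ T ∈ DM K M, a S T : ℝ) : ℂ) * Γ + ((rho K / 2 : ℝ) : ℂ) *
        ((∑ S ∈ DM K M, ∑ T ∈ DM K M, a S T *
          Real.log (gg np (pf I) (pf J) S T ^ 2 / (nS np S * nS np T)) : ℝ) : ℂ))‖ ≤
      P2 * D / G ^ 2 * ‖Γ‖ + rho K / 2 * (8 * P2 * lw * D / G ^ 2) := by
    refine (norm_add_le _ _).trans (add_le_add ?_ ?_)
    · rw [norm_mul, Complex.norm_real, Real.norm_eq_abs]
      exact mul_le_mul_of_nonneg_right hm1 (norm_nonneg _)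
    · rw [norm_mul, Complex.norm_real, Real.norm_of_nonneg (by positivity), Complex.norm_real,
        Real.norm_eq_abs]
      exact mul_le_mul_of_nonneg_left hm2 (by positivity)
  calc ‖∑ S ∈ DM K M, ∑ T ∈ DM K M, ((a S T : ℝ) : ℂ) * Sm m (Z S T)‖
      ≤ P2 * (G ^ 3 * E) + (P2 * D / G ^ 2 * ‖Γ‖ + rho K / 2 * (8 * P2 * lw * D / G ^ 2)) := by
        linarith
    _ = P2 * ((‖Γ‖ + rho K / 2 * (8 * lw)) * D / G ^ 2 + G ^ 3 * E) := by ring

theorem pf_DE (hCX : Pool.Agent.H37.CV.T_CX) (hCT : Pool.Agent.H37.CV.T_CT)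
    (hCB : Pool.Agent.H37.CV.T_CB) (hSQ : Pool.Agent.H37.CV.T_SQ)
    (hGL : Pool.Agent.H37.CV.T_GL) (hGU : Pool.Agent.H37.CV.T_GU)
    (hGC : Pool.Agent.H37.CV.T_GC) : Pool.Agent.H37.CV.T_DE := by
  classical
  intro K _ _ _ ε₁ hε₁ hε₁'
  set n : ℕ := Module.finrank ℚ K with hn
  have hn2 : 2 ≤ n := by
    have h1 : n = 2 * nrComplexPlaces K := IsTotallyComplex.finrank K
    have h2 : 0 < n := Module.finrank_pos
    omega
  have hnr : (2 : ℝ) ≤ n := by exact_mod_cast hn2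
  have hd : 0 < 1 - 2 * ε₁ := by linarith
  have hrho : 0 < rho K := dedekindZeta_residue_pos K
  obtain ⟨M₁, hM₁, hG1⟩ := hGL K (1 / 2) (by norm_num)
  obtain ⟨CU, hU0, hU1, -⟩ := hGU K
  obtain ⟨C₀, ⟨CS, hCS⟩, -⟩ := hSQ K
  set B : ℝ := |(discr K : ℝ)| with hB
  have hB1 : 1 ≤ B := one_le_discr K
  have hlB : 0 ≤ Real.log B := Real.log_nonneg hB1
  set δ : ℝ := min (2 * ε₁) (1 - 2 * ε₁) with hδ
  have hδ0 : 0 < δ := lt_min (by positivity) hd
  have hδ1 : δ ≤ 2 * ε₁ := min_le_left _ _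
  have hδ2 : δ ≤ 1 - 2 * ε₁ := min_le_right _ _
  -- constants
  set c₁ : ℝ := rho K / 2 * (Real.log B + (n + 1)) + ‖C₀‖ with hc₁
  have hc₁0 : 0 ≤ c₁ := by positivity
  set c₂ : ℝ := 1 / 2 * rho K * (1 - 2 * ε₁) with hc₂
  have hc₂0 : 0 < c₂ := by positivity
  set c₃ : ℝ := (c₁ + 12 * rho K) * |CU| / c₂ ^ 2 with hc₃
  have hc₃0 : 0 ≤ c₃ := by positivity
  set c₄ : ℝ := (|CU| * (1 + 24 / ε₁)) ^ 3 with hc₄
  have hc₄0 : 0 ≤ c₄ := by positivity
  set c₅ : ℝ := |CS| * (1 + (1 + Real.log B + 2 * (n + 2))) with hc₅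
  have hc₅0 : 0 ≤ c₅ := by positivity
  set c₆ : ℝ := c₄ * c₅ * (8 / ε₁) with hc₆
  have hc₆0 : 0 ≤ c₆ := by positivity
  have t1 : Tendsto (fun q : ℕ => (q : ℝ)) atTop atTop := tendsto_natCast_atTop_atTop
  have t2 : Tendsto (fun q : ℕ => (q : ℝ) ^ (1 - 2 * ε₁)) atTop atTop :=
    (tendsto_rpow_atTop hd).comp t1
  obtain ⟨q₀, hq₀⟩ := eventually_atTop.1 ((t2.eventually_ge_atTop M₁).and
    (t1.eventually_ge_atTop 3))
  refine ⟨δ, c₃ + c₆, q₀, hδ0, fun q hq hqq I J hI hJ hI' hJ' hIJ hsm => ?_⟩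
  obtain ⟨e1, e4⟩ := hq₀ q hqq
  have hqr1 : (1 : ℝ) ≤ q := by linarith
  have hqr0 : (0 : ℝ) < q := by linarith
  set M : ℝ := (q : ℝ) ^ (1 - 2 * ε₁) with hM
  have hM1 : 1 ≤ M := hM₁.trans e1
  have hMq : M ≤ q := by
    conv_rhs => rw [← Real.rpow_one (q : ℝ)]
    exact Real.rpow_le_rpow_of_exponent_le hqr1 (by linarith)
  set Q : ℝ := cnd K (qi K q) with hQ
  have hQ1 : 1 ≤ Q := one_le_cnd K hq.one_le
  have hQe : Q = B * (q : ℝ) ^ n := by
    rw [hQ]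
    unfold cnd
    rw [nm_qi]
  have hlq : 1 ≤ Real.log q := by
    rw [← Real.log_exp 1]
    refine Real.log_le_log (Real.exp_pos _) ?_
    have := Real.exp_one_lt_d9
    linarith
  have hlq0 : 0 < Real.log q := by linarith
  have hLlq : Real.log M ≤ Real.log q := Real.log_le_log (by linarith) hMq
  have hLM : Real.log M = (1 - 2 * ε₁) * Real.log q := Real.log_rpow hqr0 _
  have hlQ : Real.log Q = Real.log B + n * Real.log q := by
    rw [hQe, Real.log_mul (by positivity) (by positivity), Real.log_pow]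
  set w : ℝ := nm I * nm J with hw
  have hI1 := one_le_nm hI
  have hJ1 := one_le_nm hJ
  have hw1 : 1 ≤ w := one_le_mul_of_one_le_of_one_le hI1 hJ1
  have hw0 : 0 < w := by linarith
  have hwM : w ≤ M := hsm.trans (Real.rpow_le_rpow_of_exponent_le hqr1 hδ2)
  have hlw0 : 0 ≤ Real.log w := Real.log_nonneg hw1
  have hlwq : Real.log w ≤ Real.log q := Real.log_le_log hw0 (hwM.trans hMq)
  have hnI : 1 ≤ nS np (pf I) := one_le_nS _
  have hnJ : 1 ≤ nS np (pf J) := one_le_nS _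
  have hnI' : nS np (pf I) ≤ w :=
    (Pool.Agent.H81.CV.nS_pf hI).trans (le_mul_of_one_le_right (by linarith) hJ1)
  have hnJ' : nS np (pf J) ≤ w :=
    (Pool.Agent.H81.CV.nS_pf hJ).trans (le_mul_of_one_le_left (by linarith) hI1)
  have hlI : Real.log (nS np (pf I)) ≤ Real.log w := Real.log_le_log (by linarith) hnI'
  have hlJ : Real.log (nS np (pf J)) ≤ Real.log w := Real.log_le_log (by linarith) hnJ'
  have hlI0 : 0 ≤ Real.log (nS np (pf I)) := Real.log_nonneg hnI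
  have hlJ0 : 0 ≤ Real.log (nS np (pf J)) := Real.log_nonneg hnJ
  set D : ℝ := |CU| * (1 + Real.log w) with hD
  have hD0 : 0 ≤ D := by positivity
  have hDI : GS np (PM K M) M - GS np (PM K M) (M / nS np (pf I)) ≤ D := by
    refine (hU0 M _ hM1 hnI).trans ?_
    exact mul_le_mul (le_abs_self _) (by linarith) (by linarith) (abs_nonneg _)
  have hDJ : GS np (PM K M) M - GS np (PM K M) (M / nS np (pf J)) ≤ D := by
    refine (hU0 M _ hM1 hnJ).trans ?_
    exact mul_le_mul (le_abs_self _) (by linarith) (by linarith) (abs_nonneg _)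
  set E : ℝ := c₅ * (q : ℝ) ^ (-(ε₁ / 4)) with hE
  have hE0 : 0 ≤ E := by positivity
  have hlow : (q : ℝ) ^ (2 * ε₁) ≤ Q / (M ^ 2 * w) := by
    rw [le_div_iff₀ (by positivity)]
    calc (q : ℝ) ^ (2 * ε₁) * (M ^ 2 * w) ≤ (q : ℝ) ^ (2 * ε₁) * (M ^ 2 * (q : ℝ) ^ δ) := by
          gcongr
      _ = (q : ℝ) ^ (2 * ε₁ + ((1 - 2 * ε₁) * ((2 : ℕ) : ℝ) + δ)) := by
          rw [hM, ← Real.rpow_natCast ((q : ℝ) ^ (1 - 2 * ε₁)), ← Real.rpow_mul hqr0.le,
            ← Real.rpow_add hqr0, ← Real.rpow_add hqr0]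
      _ ≤ (q : ℝ) ^ (n : ℝ) := by
          refine Real.rpow_le_rpow_of_exponent_le hqr1 ?_
          push_cast
          linarith
      _ = (q : ℝ) ^ n := Real.rpow_natCast _ _
      _ ≤ B * (q : ℝ) ^ n := le_mul_of_one_le_left (by positivity) hB1
      _ = Q := hQe.symm
  have hup : Q * M ^ 2 ≤ B * (q : ℝ) ^ (n + 2) := by
    rw [hQe, pow_add]
    have : M ^ 2 ≤ (q : ℝ) ^ 2 := pow_le_pow_left₀ (by linarith) hMq 2
    calc B * (q : ℝ) ^ n * M ^ 2 ≤ B * (q : ℝ) ^ n * (q : ℝ) ^ 2 := by gcongr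
      _ = _ := by ring
  have hSm : ∀ Z : ℝ, Q / (M ^ 2 * w) ≤ Z → Z ≤ Q * M ^ 2 →
      ‖Sm (qi K q) Z - (((rho K / 2 * Real.log Z : ℝ) : ℂ) + C₀)‖ ≤ E := by
    intro Z hZ1 hZ2
    have hZq : (q : ℝ) ^ (2 * ε₁) ≤ Z := hlow.trans hZ1
    have hZ11 : 1 ≤ Z := le_trans (Real.one_le_rpow hqr1 (by positivity)) hZq
    refine (hCS q hq Z hZ11).trans ?_
    have b1 : Z ^ (-(1 / 8) : ℝ) ≤ (q : ℝ) ^ (-(ε₁ / 4)) := by
      have h1 := Real.rpow_le_rpow_of_nonpos (by positivity) hZq (show (-(1 / 8) : ℝ) ≤ 0 by norm_num)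
      refine h1.trans (le_of_eq ?_)
      rw [← Real.rpow_mul hqr0.le]
      congr 1
      ring
    have b2 : Real.log Z ≤ Real.log B + (n + 2) * Real.log q := by
      have h1 := Real.log_le_log (by linarith) (hZ2.trans hup)
      rw [Real.log_mul (by positivity) (by positivity), Real.log_pow] at h1
      push_cast at h1
      exact h1
    have b3 : Real.log q ≤ 2 * (q : ℝ) ^ (1 / 2 : ℝ) := by
      have h1 := Real.log_le_rpow_div hqr0.le (show (0 : ℝ) < 1 / 2 by norm_num)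
      linarith
    have b4 : 1 ≤ (q : ℝ) ^ (1 / 2 : ℝ) := Real.one_le_rpow hqr1 (by norm_num)
    have b5 : 1 + Real.log Z ≤ (1 + Real.log B + 2 * (n + 2)) * (q : ℝ) ^ (1 / 2 : ℝ) := by
      have h1 : (1 + Real.log B) ≤ (1 + Real.log B) * (q : ℝ) ^ (1 / 2 : ℝ) :=
        le_mul_of_one_le_right (by positivity) b4
      have h2 : ((n : ℝ) + 2) * Real.log q ≤ (n + 2) * (2 * (q : ℝ) ^ (1 / 2 : ℝ)) :=
        mul_le_mul_of_nonneg_left b3 (by positivity)
      linarith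
    have b6 : (1 + Real.log Z) / q ≤ (1 + Real.log B + 2 * (n + 2)) * (q : ℝ) ^ (-(ε₁ / 4)) := by
      rw [div_le_iff₀ hqr0]
      refine b5.trans ?_
      rw [mul_assoc]
      refine mul_le_mul_of_nonneg_left ?_ (by positivity)
      conv_rhs => rw [← Real.rpow_one (q : ℝ)]
      rw [← Real.rpow_mul hqr0.le, one_mul, ← Real.rpow_add hqr0]
      exact Real.rpow_le_rpow_of_exponent_le hqr1 (by linarith)
    have b7 : 0 ≤ (1 + Real.log Z) / q := by
      have := Real.log_nonneg hZ11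
      positivity
    have b8 : 0 ≤ Z ^ (-(1 / 8) : ℝ) := by positivity
    calc CS * (Z ^ (-(1 / 8) : ℝ) + (1 + Real.log Z) / q)
        ≤ |CS| * (Z ^ (-(1 / 8) : ℝ) + (1 + Real.log Z) / q) :=
          mul_le_mul_of_nonneg_right (le_abs_self _) (by positivity)
      _ ≤ |CS| * ((q : ℝ) ^ (-(ε₁ / 4)) +
          (1 + Real.log B + 2 * (n + 2)) * (q : ℝ) ^ (-(ε₁ / 4))) :=
          mul_le_mul_of_nonneg_left (add_le_add b1 b6) (abs_nonneg _)
      _ = E := by rw [hE, hc₅]; ring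
  have main := off_bound hCX hCT hCB hGC K (qi K q) I J Q M E D w C₀ hI hJ hI' hJ' hIJ hw hwM
    hQ1 hM1 hE0 hSm hDI hDJ
  set G : ℝ := GS np (PM K M) M with hG
  have hGl : c₂ * Real.log q ≤ G := by
    have h1 := hG1 M e1
    rw [hLM] at h1
    calc c₂ * Real.log q = (1 - 1 / 2) * rho K * ((1 - 2 * ε₁) * Real.log q) := by
          rw [hc₂]; ring
      _ ≤ G := h1
  have hGp : 0 < G := lt_of_lt_of_le (by positivity) hGl
  have hGu : G ≤ |CU| * (1 + Real.log q) := by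
    refine (hU1 M hM1).trans ?_
    have h1 : 0 ≤ 1 + Real.log M := by
      have := Real.log_nonneg hM1
      linarith
    exact mul_le_mul (le_abs_self _) (by linarith) h1 (abs_nonneg _)
  have hlq24 : 1 + Real.log q ≤ (1 + 24 / ε₁) * (q : ℝ) ^ (ε₁ / 24) := by
    have h1 := Real.log_le_rpow_div hqr0.le (show 0 < ε₁ / 24 by positivity)
    have h2 : 1 ≤ (q : ℝ) ^ (ε₁ / 24) := Real.one_le_rpow hqr1 (by positivity)
    have h3 : (q : ℝ) ^ (ε₁ / 24) / (ε₁ / 24) = (24 / ε₁) * (q : ℝ) ^ (ε₁ / 24) := by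
      field_simp
    rw [h3] at h1
    linarith
  have hG3 : G ^ 3 ≤ c₄ * (q : ℝ) ^ (ε₁ / 8) := by
    have h1 : G ≤ (|CU| * (1 + 24 / ε₁)) * (q : ℝ) ^ (ε₁ / 24) := by
      refine hGu.trans ?_
      rw [mul_assoc]
      exact mul_le_mul_of_nonneg_left hlq24 (abs_nonneg _)
    refine (pow_le_pow_left₀ hGp.le h1 3).trans (le_of_eq ?_)
    rw [mul_pow _ ((q : ℝ) ^ (ε₁ / 24)), ← Real.rpow_natCast ((q : ℝ) ^ (ε₁ / 24)),
      ← Real.rpow_mul hqr0.le, hc₄]
    congr 2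
    push_cast
    ring
  have hqlog : (q : ℝ) ^ (-(ε₁ / 8)) ≤ (8 / ε₁) / Real.log q := by
    have h1 := Real.log_le_rpow_div hqr0.le (show 0 < ε₁ / 8 by positivity)
    rw [le_div_iff₀ hlq0, Real.rpow_neg hqr0.le]
    have h2 : 0 < (q : ℝ) ^ (ε₁ / 8) := by positivity
    rw [inv_mul_le_iff₀ h2]
    refine h1.trans (le_of_eq ?_)
    field_simp
  have hGE : G ^ 3 * E ≤ c₆ / Real.log q := by
    calc G ^ 3 * E ≤ c₄ * (q : ℝ) ^ (ε₁ / 8) * (c₅ * (q : ℝ) ^ (-(ε₁ / 4))) :=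
          mul_le_mul_of_nonneg_right hG3 hE0
      _ = c₄ * c₅ * ((q : ℝ) ^ (ε₁ / 8) * (q : ℝ) ^ (-(ε₁ / 4))) := by ring
      _ = c₄ * c₅ * (q : ℝ) ^ (-(ε₁ / 8)) := by
          rw [← Real.rpow_add hqr0]
          congr 2
          ring
      _ ≤ c₄ * c₅ * ((8 / ε₁) / Real.log q) := by gcongr
      _ = _ := by rw [hc₆]; ring
  -- the main part
  have hΓ : ‖(((rho K / 2 * (Real.log Q - Real.log w) : ℝ) : ℂ) + C₀)‖ ≤ c₁ * Real.log q := by
    refine (norm_add_le _ _).trans ?_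
    rw [Complex.norm_real, Real.norm_eq_abs, abs_mul, abs_of_nonneg (show 0 ≤ rho K / 2 by positivity)]
    have h1 : |Real.log Q - Real.log w| ≤ (Real.log B + (n + 1)) * Real.log q := by
      have h2 : 0 ≤ Real.log Q := Real.log_nonneg hQ1
      have h3 : Real.log B ≤ Real.log B * Real.log q := le_mul_of_one_le_right hlB hlq
      have h4 : (Real.log B + (n + 1)) * Real.log q =
          Real.log B * Real.log q + n * Real.log q + Real.log q := by ring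
      have h5 : 0 ≤ (n : ℝ) * Real.log q := by positivity
      rw [abs_le, h4]
      constructor <;> linarith
    have h2 : ‖C₀‖ ≤ ‖C₀‖ * Real.log q := le_mul_of_one_le_right (norm_nonneg _) hlq
    have h3 := mul_le_mul_of_nonneg_left h1 (show 0 ≤ rho K / 2 by positivity)
    rw [hc₁]
    linarith
  have hlw3 : Real.log M + Real.log (nS np (pf I)) + Real.log (nS np (pf J)) ≤
      3 * Real.log q := by linarith
  have hmain : (‖(((rho K / 2 * (Real.log Q - Real.log w) : ℝ) : ℂ) + C₀)‖ +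
        rho K / 2 * (8 * (Real.log M + Real.log (nS np (pf I)) + Real.log (nS np (pf J))))) * D /
          G ^ 2 ≤ c₃ / Real.log q * (1 + Real.log w) ^ 2 := by
    have h1 : ‖(((rho K / 2 * (Real.log Q - Real.log w) : ℝ) : ℂ) + C₀)‖ +
        rho K / 2 * (8 * (Real.log M + Real.log (nS np (pf I)) + Real.log (nS np (pf J)))) ≤
        (c₁ + 12 * rho K) * Real.log q := by
      have h2 := mul_le_mul_of_nonneg_left hlw3 (show 0 ≤ rho K / 2 * 8 by positivity)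
      linarith
    have h3 : (c₂ * Real.log q) ^ 2 ≤ G ^ 2 := pow_le_pow_left₀ (by positivity) hGl 2
    have h4 : 1 + Real.log w ≤ (1 + Real.log w) ^ 2 :=
      le_self_pow₀ (by linarith) (by norm_num)
    calc _ ≤ (c₁ + 12 * rho K) * Real.log q * D / (c₂ * Real.log q) ^ 2 := by
          gcongr
      _ = c₃ / Real.log q * (1 + Real.log w) := by
          rw [hc₃, hD]
          field_simp
      _ ≤ c₃ / Real.log q * (1 + Real.log w) ^ 2 := by gcongr
  have h1w : 1 ≤ (1 + Real.log w) ^ 2 := one_le_pow₀ (by linarith)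
  have hGE2 : G ^ 3 * E ≤ c₆ / Real.log q * (1 + Real.log w) ^ 2 :=
    hGE.trans (le_mul_of_one_le_right (by positivity) h1w)
  refine main.trans ?_
  calc w ^ (-(1 / 2) : ℝ) * 2 ^ ((pf I).card + (pf J).card) *
      ((‖(((rho K / 2 * (Real.log Q - Real.log w) : ℝ) : ℂ) + C₀)‖ +
        rho K / 2 * (8 * (Real.log M + Real.log (nS np (pf I)) + Real.log (nS np (pf J))))) * D /
          G ^ 2 + G ^ 3 * E)
      ≤ w ^ (-(1 / 2) : ℝ) * 2 ^ ((pf I).card + (pf J).card) *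
      (c₃ / Real.log q * (1 + Real.log w) ^ 2 + c₆ / Real.log q * (1 + Real.log w) ^ 2) :=
        mul_le_mul_of_nonneg_left (add_le_add hmain hGE2) (by positivity)
    _ = _ := by ring

end Pool.Agent.H96.CV
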