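import Pool.Agent.H96.CV.Basic

/-! HQ: the numbers of characters for a CM field. -/

set_option autoImplicit false

open NumberField NumberField.InfinitePlace Complex Filter Topology MeasureTheory

namespace Pool.Agent.H96.CV

open Pool.Agent.H37.CV Pool.Agent.H28.RC Pool.Agent.H25.HK

section Ring

variable {R : Type} [CommRing R] [Finite R]

theorem le_card_quot (q : ℕ) (hq : q.Prime) (hq0 : (q : R) = 0) (m : Ideal R) (hm : m.IsMaximal) :
    q ≤ Nat.card (R ⧸ m) := by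
  have hnt : Nontrivial (R ⧸ m) := Ideal.Quotient.nontrivial_iff.2 hm.ne_top
  have hfin : Finite (R ⧸ m) := Finite.of_surjective _ (Ideal.Quotient.mk_surjective (I := m))
  have hfact : Fact q.Prime := ⟨hq⟩
  have h1 : addOrderOf (1 : R ⧸ m) = q := by
    refine addOrderOf_eq_prime ?_ one_ne_zero
    rw [nsmul_one]
    have := congrArg (Ideal.Quotient.mk m) hq0
    rw [map_natCast, map_zero] at this
    exact this
  have h2 : q ∣ Nat.card (R ⧸ m) := h1 ▸ addOrderOf_dvd_natCard (1 : R ⧸ m)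
  exact Nat.le_of_dvd Nat.card_pos h2

theorem card_max_le (q n : ℕ) (hq : q.Prime) (hq0 : (q : R) = 0) (hR : Nat.card R = q ^ n) :
    Nat.card (MaximalSpectrum R) ≤ n := by
  classical
  have hf : Finite (MaximalSpectrum R) := inferInstance
  have := Fintype.ofFinite (MaximalSpectrum R)
  have e := Ideal.quotientInfRingEquivPiQuotient (fun m : MaximalSpectrum R => m.asIdeal)
    (fun m m' h => by
      refine Ideal.isCoprime_iff_sup_eq.2 ?_
      refine m.isMaximal.coprime_of_ne m'.isMaximal fun h' => h ?_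
      exact MaximalSpectrum.ext h')
  have h1 : Nat.card (∀ m : MaximalSpectrum R, R ⧸ m.asIdeal) ≤ q ^ n := by
    rw [← Nat.card_congr e.toEquiv, ← hR]
    exact Nat.card_le_card_of_surjective _ Ideal.Quotient.mk_surjective
  rw [Nat.card_pi] at h1
  have h2 : q ^ Nat.card (MaximalSpectrum R) ≤
      ∏ m : MaximalSpectrum R, Nat.card (R ⧸ m.asIdeal) := by
    rw [Nat.card_eq_fintype_card, ← Finset.card_univ]
    exact Finset.pow_card_le_prod _ _ _ fun m _ => le_card_quot q hq hq0 m.asIdeal m.isMaximal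
  exact (Nat.pow_le_pow_iff_right hq.one_lt).1 (h2.trans h1)

theorem units_card (q n : ℕ) (hq : q.Prime) (hq0 : (q : R) = 0)
    (hR : Nat.card R = q ^ (n + 1)) : q ^ (n + 1) ≤ Nat.card Rˣ + (n + 1) * q ^ n := by
  classical
  have hf : Finite (MaximalSpectrum R) := inferInstance
  have := Fintype.ofFinite (MaximalSpectrum R)
  have hm : ∀ m : MaximalSpectrum R, (m.asIdeal : Set R).ncard ≤ q ^ n := by
    intro m
    have h1 : Nat.card R = Nat.card (R ⧸ m.asIdeal) * Nat.card m.asIdeal :=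
      Submodule.card_eq_card_quotient_mul_card m.asIdeal |>.trans (mul_comm _ _)
    have h2 := le_card_quot q hq hq0 m.asIdeal m.isMaximal
    have h3 : q * Nat.card m.asIdeal ≤ q * q ^ n := by
      calc q * Nat.card m.asIdeal ≤ Nat.card (R ⧸ m.asIdeal) * Nat.card m.asIdeal :=
            Nat.mul_le_mul_right _ h2
        _ = q * q ^ n := by rw [← h1, hR]; ring
    exact Nat.le_of_mul_le_mul_left h3 hq.pos
  have hnon : {x : R | ¬ IsUnit x}.ncard ≤ (n + 1) * q ^ n := by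
    have h1 : {x : R | ¬ IsUnit x} ⊆ ⋃ m ∈ (Finset.univ : Finset (MaximalSpectrum R)),
        (m.asIdeal : Set R) := by
      intro x hx
      obtain ⟨m, hm, hxm⟩ := exists_max_ideal_of_mem_nonunits (hx : x ∈ nonunits R)
      simp only [Finset.mem_univ, Set.iUnion_true, Set.mem_iUnion]
      exact ⟨⟨m, hm⟩, hxm⟩
    calc {x : R | ¬ IsUnit x}.ncard ≤ (⋃ m ∈ (Finset.univ : Finset (MaximalSpectrum R)),
          (m.asIdeal : Set R)).ncard := Set.ncard_le_ncard h1 (Set.toFinite _)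
      _ ≤ ∑ m : MaximalSpectrum R, (m.asIdeal : Set R).ncard :=
          Finset.set_ncard_biUnion_le _ _
      _ ≤ ∑ m : MaximalSpectrum R, q ^ n := Finset.sum_le_sum fun m _ => hm m
      _ = Nat.card (MaximalSpectrum R) * q ^ n := by
          rw [Finset.sum_const, smul_eq_mul, Finset.card_univ, Nat.card_eq_fintype_card]
      _ ≤ (n + 1) * q ^ n := Nat.mul_le_mul_right _ (card_max_le q (n + 1) hq hq0 hR)
  have hun : {x : R | IsUnit x}.ncard ≤ Nat.card Rˣ := by
    rw [← Nat.card_coe_set_eq]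
    refine Nat.card_le_card_of_surjective (fun u : Rˣ => (⟨u, u.isUnit⟩ : {x : R | IsUnit x}))
      fun x => ?_
    obtain ⟨x, u, rfl⟩ := x
    exact ⟨u, rfl⟩
  have hsum : Nat.card R = {x : R | IsUnit x}.ncard + {x : R | ¬ IsUnit x}.ncard := by
    rw [← Set.ncard_add_ncard_compl {x : R | IsUnit x} (Set.toFinite _) (Set.toFinite _)]
    rfl
  omega

end Ring

theorem pf_HQ (hHU : Pool.Agent.H37.CV.T_HU) (hUQ : Pool.Agent.H37.CV.T_UQ)
    (hUI : Pool.Agent.H37.CV.T_UI) : Pool.Agent.H37.CV.T_HQ := by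
  intro K _ _ _
  obtain ⟨Ch, hCh⟩ := hHU K
  obtain ⟨Cu, hCu⟩ := hUQ K
  obtain ⟨Ci, q1, hCi⟩ := hUI K
  set n : ℕ := Module.finrank ℚ K with hn
  have hn0 : 0 < n := Module.finrank_pos
  obtain ⟨k, hk⟩ : ∃ k, n = k + 1 := ⟨n - 1, by omega⟩
  set U : ℝ := max Cu 1 with hU
  set V : ℝ := max Ci 0 with hV
  have hU1 : 1 ≤ U := le_max_right _ _
  have hU0 : 0 < U := by linarith
  have hV0 : 0 ≤ V := le_max_right _ _
  refine ⟨1 / (2 * U), Ch + 2 * Ch * V, max q1 (2 * n), by positivity, fun q hq hqq => ?_⟩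
  have hq1 : q1 ≤ q := (le_max_left _ _).trans hqq
  have hq2 : 2 * n ≤ q := (le_max_right _ _).trans hqq
  have hqr1 : (1 : ℝ) ≤ q := by exact_mod_cast hq.one_le
  have hqr0 : (0 : ℝ) < q := by linarith
  have hqb : qi K q ≠ ⊥ := by
    unfold qi
    rw [Ne, Ideal.span_singleton_eq_bot]
    exact_mod_cast hq.ne_zero
  have hcard : Nat.card (𝓞 K ⧸ qi K q) = q ^ n := by
    rw [← Submodule.cardQuot_apply, ← Ideal.absNorm_apply]
    unfold qi
    rw [Ideal.absNorm_span_natCast, RingOfIntegers.rank]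
  have hfin : Finite (𝓞 K ⧸ qi K q) := by
    refine Nat.finite_of_card_ne_zero ?_
    rw [hcard]
    exact pow_ne_zero _ hq.ne_zero
  have hz : (q : 𝓞 K ⧸ qi K q) = 0 := by
    rw [← map_natCast (Ideal.Quotient.mk (qi K q)), Ideal.Quotient.eq_zero_iff_mem]
    exact Ideal.mem_span_singleton_self _
  have hun : (q : ℝ) ^ n / 2 ≤ Nat.card (𝓞 K ⧸ qi K q)ˣ := by
    have h1 := units_card (R := 𝓞 K ⧸ qi K q) q k hq hz (by rw [hcard, hk])
    have h2 : 2 * ((k + 1) * q ^ k) ≤ q ^ (k + 1) := by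
      calc 2 * ((k + 1) * q ^ k) = (2 * n) * q ^ k := by rw [hk]; ring
        _ ≤ q * q ^ k := Nat.mul_le_mul_right _ hq2
        _ = q ^ (k + 1) := by ring
    have h3 : q ^ (k + 1) ≤ 2 * Nat.card (𝓞 K ⧸ qi K q)ˣ := by omega
    have h4 : ((q ^ (k + 1) : ℕ) : ℝ) ≤ ((2 * Nat.card (𝓞 K ⧸ qi K q)ˣ : ℕ) : ℝ) := by
      exact_mod_cast h3
    push_cast at h4
    rw [hk]
    linarith
  obtain ⟨a1, -⟩ := hCh (qi K q) (qi K q) hqb le_rfl
  have hucp : ∀ d : Ideal (𝓞 K), qi K q ≤ d → 0 < uc d := by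
    intro d hd
    have hfd : Finite (𝓞 K ⧸ d) :=
      Finite.of_surjective _ (Ideal.Quotient.factor_surjective hd)
    unfold uc
    rw [Set.ncard_pos (Set.toFinite _)]
    exact ⟨_, ⟨1, rfl⟩⟩
  have huq : (0 : ℝ) < uc (qi K q) := by exact_mod_cast hucp _ le_rfl
  have hnq : (q : ℝ) ^ n / 2 ≤ (nc (qi K q) (qi K q) : ℝ) * uc (qi K q) := by
    refine hun.trans ?_
    exact_mod_cast a1
  have hucq : (uc (qi K q) : ℝ) ≤ U * (q : ℝ) ^ ((n : ℝ) / 2 - 1) := by
    refine (hCu q hq).trans ?_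
    exact mul_le_mul_of_nonneg_right (le_max_left _ _) (by positivity)
  refine ⟨?_, fun d hd => ⟨?_, fun hdq => ?_⟩⟩
  · refine le_of_mul_le_mul_right ?_ huq
    refine le_trans ?_ hnq
    calc 1 / (2 * U) * (q : ℝ) ^ ((n : ℝ) / 2 + 1) * uc (qi K q)
        ≤ 1 / (2 * U) * (q : ℝ) ^ ((n : ℝ) / 2 + 1) * (U * (q : ℝ) ^ ((n : ℝ) / 2 - 1)) := by
          gcongr
      _ = ((q : ℝ) ^ ((n : ℝ) / 2 + 1) * (q : ℝ) ^ ((n : ℝ) / 2 - 1)) / 2 := by
          field_simp
      _ = (q : ℝ) ^ n / 2 := by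
          rw [← Real.rpow_add hqr0, ← Real.rpow_natCast]
          congr 2
          ring
  · obtain ⟨-, b2⟩ := hCh (qi K q) d hqb hd
    have b3 : (nc (qi K q) d : ℝ) * uc d ≤ Ch * nm d := by
      unfold nm
      exact_mod_cast b2
    refine b3.trans ?_
    have : 0 ≤ nm d := Nat.cast_nonneg _
    have h1 : (0 : ℝ) ≤ 2 * Ch * V := by positivity
    nlinarith
  · obtain ⟨-, b2⟩ := hCh (qi K q) d hqb hd
    have b3 : (nc (qi K q) d : ℝ) * uc d ≤ Ch * nm d := by
      unfold nm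
      exact_mod_cast b2
    have b4 := hCi q hq hq1 d hd hdq
    have hud : (0 : ℝ) < uc d := by exact_mod_cast hucp d hd
    set w : ℝ := (q : ℝ) ^ (-(1 / 2) : ℝ) with hw
    have hw0 : 0 ≤ w := by positivity
    have b5 : (uc (qi K q) : ℝ) * nm d ≤ V * w * (q : ℝ) ^ n * uc d := by
      refine b4.trans ?_
      gcongr
      exact le_max_left _ _
    refine le_of_mul_le_mul_right ?_ (mul_pos hud huq)
    calc (nc (qi K q) d : ℝ) * (uc d * uc (qi K q)) = (nc (qi K q) d * uc d) * uc (qi K q) := by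
          ring
      _ ≤ (Ch * nm d) * uc (qi K q) := mul_le_mul_of_nonneg_right b3 huq.le
      _ = Ch * (uc (qi K q) * nm d) := by ring
      _ ≤ Ch * (V * w * (q : ℝ) ^ n * uc d) := mul_le_mul_of_nonneg_left b5 (Nat.cast_nonneg _)
      _ = 2 * Ch * V * w * uc d * ((q : ℝ) ^ n / 2) := by ring
      _ ≤ 2 * Ch * V * w * uc d * ((nc (qi K q) (qi K q) : ℝ) * uc (qi K q)) := by gcongr
      _ = (2 * Ch * V) * w * nc (qi K q) (qi K q) * (uc d * uc (qi K q)) := by ring
      _ ≤ (Ch + 2 * Ch * V) * w * nc (qi K q) (qi K q) * (uc d * uc (qi K q)) := by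
          gcongr
          have : (0 : ℝ) ≤ Ch := Nat.cast_nonneg _
          linarith

end Pool.Agent.H96.CV
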