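import Pool.Agent.H96.CV.Basic

/-! LS: the sum of `log N(S) / φ(S)`. -/

set_option autoImplicit false

open NumberField NumberField.InfinitePlace Complex Filter Topology MeasureTheory

namespace Pool.Agent.H96.CV

open Pool.Agent.H37.CV Pool.Agent.H28.RC Pool.Agent.H25.HK

section
variable {K : Type} [Field K] [NumberField K]

theorem fin_np (M : ℝ) : {P : PrI K | np P ≤ M}.Finite := by
  have h1 := Ideal.finite_setOfPred_absNorm_le (S := 𝓞 K) ⌊M⌋₊
  refine Set.Finite.of_finite_image (f := fun P : PrI K => P.1) (h1.subset ?_)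
    (Subtype.val_injective.injOn)
  rintro I ⟨P, hP, rfl⟩
  refine Nat.le_floor ?_
  exact hP

theorem mem_PM {M : ℝ} {P : PrI K} : P ∈ PM K M ↔ np P ≤ M := by
  unfold PM
  rw [dif_pos (fin_np M)]
  simp

theorem fS_pos (S : Finset (PrI K)) : 0 < fS np S :=
  Finset.prod_pos fun P _ => by linarith [two_le_np P]

theorem GS_nonneg (A : Finset (PrI K)) (M : ℝ) : 0 ≤ GS np A M :=
  Finset.sum_nonneg fun S _ => (inv_pos.2 (fS_pos S)).le

end

theorem pf_LS (hGL : Pool.Agent.H37.CV.T_GL) : Pool.Agent.H37.CV.T_LS := by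
  classical
  intro K _ _ ε hε
  obtain ⟨M₁, hM₁, hG⟩ := hGL K (ε / 2) (by positivity)
  obtain ⟨k, hk⟩ := exists_nat_gt (2 / ε)
  have hk0 : (0 : ℝ) < k := lt_trans (by positivity) hk
  have hkε : 1 / (k : ℝ) ≤ ε / 2 := by
    rw [div_le_iff₀ hk0]
    rw [div_lt_iff₀ hε] at hk
    linarith
  refine ⟨max (M₁ ^ k) 2, le_trans (by norm_num) (le_max_right _ _), fun M hM => ?_⟩
  have hM2 : 2 ≤ M := (le_max_right _ _).trans hM
  have hMk : M₁ ^ k ≤ M := (le_max_left _ _).trans hM
  have hM0 : 0 < M := by linarith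
  set L : ℝ := Real.log M with hL
  have hL0 : 0 < L := Real.log_pos (by linarith)
  set x : ℕ → ℝ := fun i => Real.exp (i / k * L) with hx
  have hxlog : ∀ i, Real.log (x i) = i / k * L := fun i => Real.log_exp _
  have hxM : ∀ i < k, x i ≤ M := by
    intro i hi
    rw [← Real.exp_log hM0]
    refine Real.exp_le_exp.2 ?_
    have : (i : ℝ) / k ≤ 1 := by
      rw [div_le_one hk0]
      exact_mod_cast hi.le
    calc (i : ℝ) / k * L ≤ 1 * L := mul_le_mul_of_nonneg_right this hL0.le
      _ = Real.log M := one_mul _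
  have hrho : 0 ≤ rho K := (dedekindZeta_residue_pos K).le
  -- the lower bounds of G
  have hGx : ∀ i < k, (1 - ε / 2) * rho K * (i / k * L) ≤ GS np (PM K (x i)) (x i) := by
    intro i hi
    rcases Nat.eq_zero_or_pos i with h0 | h0
    · subst h0
      simpa using GS_nonneg _ _
    · have h1 : M₁ ≤ x i := by
        have h2 : Real.log M₁ ≤ i / k * L := by
          have h3 : k * Real.log M₁ ≤ L := by
            have := Real.log_le_log (by positivity) hMk
            rwa [Real.log_pow] at this
          have h4 : 0 ≤ Real.log M₁ := Real.log_nonneg hM₁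
          have h5 : (1 : ℝ) ≤ i := by exact_mod_cast h0
          rw [div_mul_eq_mul_div, le_div_iff₀ hk0]
          nlinarith
        rw [← Real.exp_log (show 0 < M₁ by linarith)]
        exact Real.exp_le_exp.2 h2
      have := hG (x i) h1
      rwa [hxlog] at this
  -- the sets
  have hsub : ∀ i < k, DM K (x i) ⊆ (DM K M).filter (fun S => nS np S ≤ x i) := by
    intro i hi S hS
    obtain ⟨h1, h2⟩ := mem_DM.1 hS
    refine Finset.mem_filter.2 ⟨mem_DM.2 ⟨fun P hP => ?_, h2.trans (hxM i hi)⟩, h2⟩
    exact mem_PM.2 ((mem_PM.1 (h1 hP)).trans (hxM i hi))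
  -- the counting
  have hcount : ∀ S ∈ DM K M, ∑ i ∈ Finset.range k, (if nS np S ≤ x i then L / k else 0) ≤
      L - Real.log (nS np S) := by
    intro S hS
    obtain ⟨-, h2⟩ := mem_DM.1 hS
    set t : ℝ := Real.log (nS np S) / L with ht
    have ht0 : 0 ≤ t := div_nonneg (Real.log_nonneg (one_le_nS S)) hL0.le
    have ht1 : t ≤ 1 := by
      rw [ht, div_le_one hL0]
      exact Real.log_le_log (nS_pos S) h2
    have htL : Real.log (nS np S) = t * L := by
      rw [ht]
      field_simp
    have hc : ((Finset.range k).filter (fun i => nS np S ≤ x i)).card ≤ k - ⌈k * t⌉₊ := by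
      have h3 : (Finset.range k).filter (fun i => nS np S ≤ x i) ⊆ Finset.Ico ⌈k * t⌉₊ k := by
        intro i hi
        obtain ⟨h4, h5⟩ := Finset.mem_filter.1 hi
        refine Finset.mem_Ico.2 ⟨Nat.ceil_le.2 ?_, Finset.mem_range.1 h4⟩
        have h6 := Real.log_le_log (nS_pos S) h5
        rw [hxlog, htL] at h6
        have h7 : t ≤ i / k := le_of_mul_le_mul_right h6 hL0
        rw [le_div_iff₀ hk0] at h7
        linarith
      have h4 := Finset.card_le_card h3
      rwa [Nat.card_Ico] at h4
    have hle : ⌈k * t⌉₊ ≤ k := by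
      refine Nat.ceil_le.2 ?_
      nlinarith
    rw [← Finset.sum_filter, Finset.sum_const, nsmul_eq_mul, htL]
    have h8 : (((Finset.range k).filter (fun i => nS np S ≤ x i)).card : ℝ) ≤ k - k * t := by
      have h9 : (((Finset.range k).filter (fun i => nS np S ≤ x i)).card : ℝ) ≤
          ((k - ⌈k * t⌉₊ : ℕ) : ℝ) := by exact_mod_cast hc
      rw [Nat.cast_sub hle] at h9
      have h10 := Nat.le_ceil ((k : ℝ) * t)
      linarith
    calc (((Finset.range k).filter (fun i => nS np S ≤ x i)).card : ℝ) * (L / k)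
        ≤ (k - k * t) * (L / k) := mul_le_mul_of_nonneg_right h8 (by positivity)
      _ = L - t * L := by field_simp
  -- the main inequality
  have key : ∑ i ∈ Finset.range k, (L / k) * GS np (PM K (x i)) (x i) ≤
      ∑ S ∈ DM K M, (L - Real.log (nS np S)) / fS np S := by
    calc ∑ i ∈ Finset.range k, (L / k) * GS np (PM K (x i)) (x i)
        ≤ ∑ i ∈ Finset.range k, ∑ S ∈ DM K M,
          (if nS np S ≤ x i then L / k else 0) * (fS np S)⁻¹ := by
          refine Finset.sum_le_sum fun i hi => ?_
          have hi' := Finset.mem_range.1 hi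
          unfold GS
          rw [Finset.mul_sum]
          have h1 : ∑ S ∈ DM K M, (if nS np S ≤ x i then L / k else 0) * (fS np S)⁻¹ =
              ∑ S ∈ (DM K M).filter (fun S => nS np S ≤ x i), (L / k) * (fS np S)⁻¹ := by
            rw [Finset.sum_filter]
            refine Finset.sum_congr rfl fun S _ => ?_
            split_ifs <;> simp
          rw [h1]
          refine Finset.sum_le_sum_of_subset_of_nonneg (hsub i hi') fun S _ _ => ?_
          have := fS_pos S
          positivity
      _ = ∑ S ∈ DM K M, (∑ i ∈ Finset.range k, (if nS np S ≤ x i then L / k else 0)) *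
          (fS np S)⁻¹ := by
          rw [Finset.sum_comm]
          refine Finset.sum_congr rfl fun S _ => ?_
          rw [Finset.sum_mul]
      _ ≤ ∑ S ∈ DM K M, (L - Real.log (nS np S)) / fS np S := by
          refine Finset.sum_le_sum fun S hS => ?_
          rw [div_eq_mul_inv]
          exact mul_le_mul_of_nonneg_right (hcount S hS) (inv_pos.2 (fS_pos S)).le
  have hlow : (1 - ε) * rho K * L ^ 2 / 2 ≤
      ∑ i ∈ Finset.range k, (L / k) * GS np (PM K (x i)) (x i) := by
    have h1 : ∑ i ∈ Finset.range k, (L / k) * ((1 - ε / 2) * rho K * (i / k * L)) ≤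
        ∑ i ∈ Finset.range k, (L / k) * GS np (PM K (x i)) (x i) :=
      Finset.sum_le_sum fun i hi => mul_le_mul_of_nonneg_left (hGx i (Finset.mem_range.1 hi))
        (by positivity)
    refine le_trans ?_ h1
    have h2 : (∑ i ∈ Finset.range k, (i : ℝ)) = k * (k - 1) / 2 := by
      clear_value L
      clear hkε hk0 hk hMk hM hxlog hxM hGx hsub hcount key h1 hx x
      induction k with
      | zero => simp
      | succ k ih =>
        rw [Finset.sum_range_succ, ih]
        push_cast
        ring
    have h3 : ∑ i ∈ Finset.range k, (L / k) * ((1 - ε / 2) * rho K * (i / k * L)) =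
        (1 - ε / 2) * rho K * L ^ 2 / k ^ 2 * ∑ i ∈ Finset.range k, (i : ℝ) := by
      rw [Finset.mul_sum]
      refine Finset.sum_congr rfl fun i _ => ?_
      field_simp
    rw [h3, h2]
    have h4 : (1 - ε / 2) * rho K * L ^ 2 / k ^ 2 * (k * (k - 1) / 2) =
        ((1 - ε / 2) * (1 - 1 / k)) * (rho K * L ^ 2 / 2) := by
      field_simp
    rw [h4]
    have h5 : 1 - ε ≤ (1 - ε / 2) * (1 - 1 / k) := by
      have h6 : 0 ≤ ε / 2 * (1 / k) := by positivity
      nlinarith
    calc (1 - ε) * rho K * L ^ 2 / 2 = (1 - ε) * (rho K * L ^ 2 / 2) := by ring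
      _ ≤ _ := mul_le_mul_of_nonneg_right h5 (by positivity)
  have hfin : ∑ S ∈ DM K M, (L - Real.log (nS np S)) / fS np S =
      GS np (PM K M) M * L - ∑ S ∈ DM K M, Real.log (nS np S) / fS np S := by
    unfold GS
    rw [Finset.sum_mul]
    change _ = ∑ S ∈ DM K M, (fS np S)⁻¹ * L - _
    rw [← Finset.sum_sub_distrib]
    refine Finset.sum_congr rfl fun S _ => ?_
    rw [sub_div]
    ring
  linarith

end Pool.Agent.H96.CV
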