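import Pool.Agent.H96.CV.Basic

/-! VS: the sum over all ideals. -/

set_option autoImplicit false

open NumberField NumberField.InfinitePlace Complex Filter Topology MeasureTheory

namespace Pool.Agent.H96.CV

open Pool.Agent.H37.CV Pool.Agent.H28.RC Pool.Agent.H25.HK

theorem pf_VS (hSH : Pool.Agent.H37.CV.T_SH) (hGB : Pool.Agent.H37.CV.T_GB)
    (hZK : Pool.Agent.H37.CV.T_ZK) : Pool.Agent.H37.CV.T_VS := by
  classical
  intro K _ _ _
  set r : ℕ := nrComplexPlaces K with hr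
  obtain ⟨E, hEd, hEs, hE1, hEg⟩ := hZK K
  obtain ⟨hg0, C₁, A₁, hg⟩ := hGB.1 r 2
  obtain ⟨C₂, A₂, hE2⟩ := hEg 5
  set a₁ : ℝ := max A₁ 0 with ha₁
  set a₂ : ℝ := max A₂ 0 with ha₂
  have ha₁0 : 0 ≤ a₁ := le_max_right _ _
  have ha₂0 : 0 ≤ a₂ := le_max_right _ _
  set H : ℂ → ℂ := fun s => gq r s * (E (1 + 2 * s) / 2) with hH
  have hre : ∀ s : ℂ, -(1 / 8) ≤ s.re → -(1 / 4) ≤ s.re := fun s h => by linarith
  have hHd : ∀ s : ℂ, (-(1 / 8) : ℝ) ≤ s.re → s.re ≤ 2 → DifferentiableAt ℂ H s := by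
    intro s h1 h2
    refine DifferentiableAt.mul (hg s (hre s h1) h2).1 ?_
    have : DifferentiableAt ℂ (fun s : ℂ => 1 + 2 * s) s := by fun_prop
    exact ((hEd (1 + 2 * s)).comp s this).div_const 2
  set CH : ℝ := |C₁| * (|C₂| * 2 ^ a₂ / 2) with hCH
  have hCH0 : 0 ≤ CH := by positivity
  have hHg : ∀ s : ℂ, (-(1 / 8) : ℝ) ≤ s.re → s.re ≤ 2 → ‖H s‖ ≤ CH * (1 + |s.im|) ^ (a₁ + a₂) := by
    intro s h1 h2
    have b0 : 1 ≤ 1 + |s.im| := by linarith [abs_nonneg s.im]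
    have b1 : ‖gq r s‖ ≤ |C₁| * (1 + |s.im|) ^ a₁ := by
      refine (hg s (hre s h1) h2).2.trans ?_
      refine mul_le_mul (le_abs_self _) (Real.rpow_le_rpow_of_exponent_le b0 (le_max_left _ _))
        (by positivity) (abs_nonneg _)
    have b2 : ‖E (1 + 2 * s)‖ ≤ |C₂| * (2 ^ a₂ * (1 + |s.im|) ^ a₂) := by
      have c1 : |(1 + 2 * s).re| ≤ 5 := by
        simp only [Complex.add_re, Complex.one_re, Complex.mul_re, Complex.re_ofNat,
          Complex.im_ofNat, zero_mul, sub_zero]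
        rw [abs_le]
        constructor <;> linarith
      refine (hE2 _ c1).trans ?_
      refine mul_le_mul (le_abs_self _) ?_ (by positivity) (abs_nonneg _)
      have c2 : |(1 + 2 * s).im| = 2 * |s.im| := by
        simp [Complex.add_im, Complex.mul_im, abs_mul]
      rw [c2]
      have c3 : 1 ≤ 1 + 2 * |s.im| := by linarith [abs_nonneg s.im]
      calc (1 + 2 * |s.im|) ^ A₂ ≤ (1 + 2 * |s.im|) ^ a₂ :=
            Real.rpow_le_rpow_of_exponent_le c3 (le_max_left _ _)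
        _ ≤ (2 * (1 + |s.im|)) ^ a₂ := by
            refine Real.rpow_le_rpow (by positivity) ?_ ha₂0
            linarith [abs_nonneg s.im]
        _ = 2 ^ a₂ * (1 + |s.im|) ^ a₂ := Real.mul_rpow (by norm_num) (by positivity)
    simp only [hH]
    rw [norm_mul, norm_div, Complex.norm_ofNat, Real.rpow_add (by linarith)]
    calc ‖gq r s‖ * (‖E (1 + 2 * s)‖ / 2) ≤ (|C₁| * (1 + |s.im|) ^ a₁) *
          ((|C₂| * (2 ^ a₂ * (1 + |s.im|) ^ a₂)) / 2) := by
          gcongr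
      _ = _ := by rw [hCH]; ring
  -- the integral on the left line
  have hab : (-(1 / 8) : ℝ) ≤ 2 := by norm_num
  obtain ⟨-, -, hS3⟩ := hSH H (-(1 / 8)) 2 hab hHd ⟨CH, a₁ + a₂, hHg⟩
  obtain ⟨-, hI1, -⟩ := hS3 (by norm_num) (by norm_num)
  set Cint : ℝ := ∫ t : ℝ, ‖H (((-(1 / 8) : ℝ) : ℂ) + t * I) *
    (cexp ((((-(1 / 8) : ℝ) : ℂ) + t * I) ^ 2) / (((-(1 / 8) : ℝ) : ℂ) + t * I) ^ 2)‖ with hCint
  refine ⟨deriv H 0, 1 / (2 * Real.pi) * Cint, fun Z hZ => ?_⟩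
  have hZ0 : 0 < Z := by linarith
  have hZc : (Z : ℂ) ≠ 0 := by exact_mod_cast hZ0.ne'
  set F : ℂ → ℂ := fun s => H s * (Z : ℂ) ^ s with hF
  have hnZ : ∀ s : ℂ, ‖(Z : ℂ) ^ s‖ = Z ^ s.re := fun s => Complex.norm_cpow_eq_rpow_re_of_pos hZ0 s
  have hFd : ∀ s : ℂ, (-(1 / 8) : ℝ) ≤ s.re → s.re ≤ 2 → DifferentiableAt ℂ F s := by
    intro s h1 h2
    exact (hHd s h1 h2).mul ((differentiableAt_id).const_cpow (Or.inl hZc))
  have hFg : ∀ s : ℂ, (-(1 / 8) : ℝ) ≤ s.re → s.re ≤ 2 →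
      ‖F s‖ ≤ (CH * Z ^ (2 : ℝ)) * (1 + |s.im|) ^ (a₁ + a₂) := by
    intro s h1 h2
    simp only [hF]
    rw [norm_mul, hnZ]
    calc ‖H s‖ * Z ^ s.re ≤ (CH * (1 + |s.im|) ^ (a₁ + a₂)) * Z ^ (2 : ℝ) := by
          refine mul_le_mul (hHg s h1 h2) (Real.rpow_le_rpow_of_exponent_le hZ h2)
            (by positivity) (by positivity)
      _ = _ := by ring
  obtain ⟨-, -, hT3⟩ := hSH F (-(1 / 8)) 2 hab hFd ⟨_, a₁ + a₂, hFg⟩
  obtain ⟨-, -, hT⟩ := hT3 (by norm_num) (by norm_num)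
  -- the left integral
  have hleft : ‖∫ t : ℝ, F (((-(1 / 8) : ℝ) : ℂ) + t * I) *
      (cexp ((((-(1 / 8) : ℝ) : ℂ) + t * I) ^ 2) / (((-(1 / 8) : ℝ) : ℂ) + t * I) ^ 2)‖ ≤
      Cint * Z ^ (-(1 / 8) : ℝ) := by
    refine (norm_integral_le_integral_norm _).trans (le_of_eq ?_)
    rw [hCint, ← integral_mul_const]
    congr 1
    funext t
    simp only [hF]
    rw [mul_right_comm, norm_mul _ ((Z : ℂ) ^ _), hnZ]
    simp
  -- the derivative
  have hder : deriv F 0 = deriv H 0 + ((rho K / 2 * Real.log Z : ℝ) : ℂ) := by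
    have h1 : HasDerivAt H (deriv H 0) 0 := (hHd 0 (by simp) (by simp)).hasDerivAt
    have h2 : HasDerivAt (fun s : ℂ => (Z : ℂ) ^ s) ((Z : ℂ) ^ (0 : ℂ) * Complex.log Z * 1) 0 :=
      (hasDerivAt_id (0 : ℂ)).const_cpow (Or.inl hZc)
    have h3 := (h1.mul h2).deriv
    have h4 : H 0 = ((rho K / 2 : ℝ) : ℂ) := by
      simp only [hH]
      rw [hg0, mul_zero, add_zero, hE1]
      push_cast
      ring
    have h5 : deriv F 0 = deriv (H * fun s : ℂ => (Z : ℂ) ^ s) 0 := rfl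
    rw [h5, h3, h4, Complex.cpow_zero, ← Complex.ofReal_log hZ0.le]
    push_cast
    ring
  -- the right integral is the sum
  have hright : Sm (K := K) ⊤ Z = ((1 / (2 * Real.pi) : ℝ) : ℂ) * ∫ t : ℝ,
      F (((2 : ℝ) : ℂ) + t * I) * (cexp ((((2 : ℝ) : ℂ) + t * I) ^ 2) / (((2 : ℝ) : ℂ) + t * I) ^ 2) := by
    set φ : ℝ → ℂ := fun t => gq r (2 + t * I) * (cexp ((2 + t * I) ^ 2) / (2 + t * I)) with hφ
    have hφi : Integrable φ := by
      obtain ⟨-, h2, -⟩ := hSH (gq r) (-(1 / 8)) 2 hab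
        (fun s h1 h2 => (hg s (hre s h1) h2).1)
        ⟨C₁, A₁, fun s h1 h2 => (hg s (hre s h1) h2).2⟩
      obtain ⟨h3, -⟩ := h2 (by norm_num) (by norm_num)
      simpa [hφ] using h3
    set f : NI K → ℝ → ℂ := fun I t => (((nm I.1)⁻¹ : ℝ) : ℂ) *
      (φ t * (((nm I.1 ^ 2 / Z : ℝ) : ℂ) ^ (-(2 + t * Complex.I)))) with hf
    have hx : ∀ I : NI K, 0 < nm I.1 ^ 2 / Z := fun I => by
      have := nm_pos I.2
      positivity
    have hfn : ∀ (I : NI K) (t : ℝ), ‖f I t‖ = (Z ^ 2 * nm I.1 ^ (-(5 : ℝ))) * ‖φ t‖ := by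
      intro I t
      have h1 := nm_pos I.2
      simp only [hf]
      rw [norm_mul, norm_mul, Complex.norm_real, Real.norm_of_nonneg (by positivity),
        Complex.norm_cpow_eq_rpow_re_of_pos (hx I)]
      have h2 : (-(2 + (t : ℂ) * Complex.I)).re = -(2 : ℝ) := by simp
      rw [h2, Real.rpow_neg (hx I).le, Real.rpow_neg h1.le]
      have h3 : (nm I.1 ^ 2 / Z) ^ (2 : ℝ) = (nm I.1 ^ 2 / Z) ^ 2 := by
        norm_cast
      have h4 : nm I.1 ^ (5 : ℝ) = nm I.1 ^ 5 := by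
        norm_cast
      rw [h3, h4]
      field_simp
    have hfm : ∀ I : NI K, AEStronglyMeasurable (f I) volume := by
      intro I
      have h1 : Continuous (fun t : ℝ => ((nm I.1 ^ 2 / Z : ℝ) : ℂ) ^ (-(2 + t * Complex.I))) := by
        refine Continuous.const_cpow (by fun_prop) (Or.inl ?_)
        exact_mod_cast (hx I).ne'
      exact (hφi.aestronglyMeasurable.mul h1.aestronglyMeasurable).const_mul _
    have hfi : ∀ I : NI K, Integrable (f I) := by
      intro I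
      refine (hφi.norm.const_mul (Z ^ 2 * nm I.1 ^ (-(5 : ℝ)))).mono' (hfm I) ?_
      exact Eventually.of_forall fun t => (hfn I t).le
    have hsum : Summable (fun I : NI K => ∫ t, ‖f I t‖) := by
      have h1 := (hEs 5 (by norm_num)).1
      have h2 : (fun I : NI K => ∫ t, ‖f I t‖) =
          fun I : NI K => ‖((nm I.1 : ℝ) : ℂ) ^ (-(5 : ℂ))‖ * (Z ^ 2 * ∫ t, ‖φ t‖) := by
        funext I
        simp only [hfn]
        rw [integral_const_mul, Complex.norm_cpow_eq_rpow_re_of_pos (nm_pos I.2)]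
        have h3 : (-(5 : ℂ)).re = -(5 : ℝ) := by simp
        rw [h3]
        ring
      rw [h2]
      exact h1.mul_right _
    have hcount : Countable (NI K) := by
      have h1 : Function.support (fun I : NI K => ‖((nm I.1 : ℝ) : ℂ) ^ (-(5 : ℂ))‖) = Set.univ := by
        ext I
        simp only [Function.mem_support, Set.mem_univ, iff_true]
        rw [Complex.norm_cpow_eq_rpow_re_of_pos (nm_pos I.2)]
        exact (Real.rpow_pos_of_pos (nm_pos I.2) _).ne'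
      have h2 := (hEs 5 (by norm_num)).1.countable_support
      rw [h1] at h2
      exact Set.countable_univ_iff.1 h2
    have hkey : ∀ t : ℝ, ∑' I : NI K, f I t =
        F (((2 : ℝ) : ℂ) + t * Complex.I) * (cexp ((((2 : ℝ) : ℂ) + t * Complex.I) ^ 2) /
          (((2 : ℝ) : ℂ) + t * Complex.I) ^ 2) := by
      intro t
      set s : ℂ := 2 + t * Complex.I with hs
      have hs0 : s ≠ 0 := by
        intro h
        have := congrArg Complex.re h
        simp [hs] at this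
      have hsre : s.re = 2 := by simp [hs]
      have h1 : ∀ I : NI K, f I t = (φ t * (Z : ℂ) ^ s) * ((nm I.1 : ℝ) : ℂ) ^ (-(1 + 2 * s)) := by
        intro I
        have hn := nm_pos I.2
        have hnc : ((nm I.1 : ℝ) : ℂ) ≠ 0 := by exact_mod_cast hn.ne'
        simp only [hf]
        rw [← hs]
        have h2 : ((nm I.1 ^ 2 / Z : ℝ) : ℂ) ^ (-s) =
            ((nm I.1 : ℝ) : ℂ) ^ (-(2 * s)) * (Z : ℂ) ^ s := by
          have hxc : ((nm I.1 ^ 2 / Z : ℝ) : ℂ) ≠ 0 := by exact_mod_cast (hx I).ne'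
          rw [Complex.cpow_def_of_ne_zero hxc, Complex.cpow_def_of_ne_zero hnc,
            Complex.cpow_def_of_ne_zero hZc, ← Complex.exp_add, ← Complex.ofReal_log (hx I).le,
            ← Complex.ofReal_log hn.le, ← Complex.ofReal_log hZ0.le,
            Real.log_div (by positivity) (by positivity), Real.log_pow]
          congr 1
          push_cast
          ring
        have h3 : ((nm I.1 : ℝ) : ℂ) ^ (-(1 + 2 * s)) = (((nm I.1)⁻¹ : ℝ) : ℂ) *
            ((nm I.1 : ℝ) : ℂ) ^ (-(2 * s)) := by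
          have : -(1 + 2 * s) = -1 + -(2 * s) := by ring
          rw [this, Complex.cpow_add _ _ hnc, Complex.cpow_neg_one, Complex.ofReal_inv]
        rw [h2, h3]
        ring
      simp only [h1]
      rw [tsum_mul_left]
      have h4 := (hEs (1 + 2 * s) (by simp [hsre])).2
      have h5 : ∑' I : NI K, ((nm I.1 : ℝ) : ℂ) ^ (-(1 + 2 * s)) = E (1 + 2 * s) / (2 * s) := by
        rw [h4]
        field_simp
        ring
      rw [h5]
      have h6 : (((2 : ℝ) : ℂ) + t * Complex.I) = s := by rw [hs]; push_cast; rfl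
      rw [h6]
      simp only [hF, hH, hφ]
      rw [← hs]
      field_simp
    have hexch := integral_tsum_of_summable_integral_norm hfi hsum
    have hre2 : Sm (K := K) ⊤ Z = ∑' I : NI K, (((nm I.1)⁻¹ : ℝ) : ℂ) *
        Vf r (nm I.1 ^ 2 / Z) := by
      unfold Sm
      exact ((Equiv.subtypeEquivRight (fun t : Ideal (𝓞 K) => (by simp :
        t ≠ ⊥ ↔ t ≠ ⊥ ∧ t ⊔ ⊤ = ⊤))).tsum_eq _).symm
    have hterm : ∀ I : NI K, (((nm I.1)⁻¹ : ℝ) : ℂ) * Vf r (nm I.1 ^ 2 / Z) =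
        ((1 / (2 * Real.pi) : ℝ) : ℂ) * ∫ t, f I t := by
      intro I
      simp only [hf]
      rw [integral_const_mul]
      unfold Vf
      simp only [hφ]
      ring
    rw [hre2]
    simp only [hterm]
    rw [tsum_mul_left, hexch]
    congr 1
    exact integral_congr_ae (Eventually.of_forall hkey)
  rw [hright]
  have h1 := sub_eq_iff_eq_add.1 hT
  rw [h1, hder]
  have hpi : ((1 / (2 * Real.pi) : ℝ) : ℂ) * (2 * Real.pi) = 1 := by
    push_cast
    have : (Real.pi : ℂ) ≠ 0 := by exact_mod_cast Real.pi_ne_zero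
    field_simp
  set Lf : ℂ := ∫ t : ℝ, F (((-(1 / 8) : ℝ) : ℂ) + t * Complex.I) *
      (cexp ((((-(1 / 8) : ℝ) : ℂ) + t * Complex.I) ^ 2) /
        (((-(1 / 8) : ℝ) : ℂ) + t * Complex.I) ^ 2) with hLf
  have h2 : ((1 / (2 * Real.pi) : ℝ) : ℂ) * (2 * (Real.pi : ℂ) *
      (deriv H 0 + ((rho K / 2 * Real.log Z : ℝ) : ℂ)) + Lf) -
      (((rho K / 2 * Real.log Z : ℝ) : ℂ) + deriv H 0) = ((1 / (2 * Real.pi) : ℝ) : ℂ) * Lf := by
    linear_combination (deriv H 0 + ((rho K / 2 * Real.log Z : ℝ) : ℂ)) * hpi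
  rw [h2, norm_mul, Complex.norm_real, Real.norm_of_nonneg (by positivity)]
  calc 1 / (2 * Real.pi) * ‖Lf‖ ≤ 1 / (2 * Real.pi) * (Cint * Z ^ (-(1 / 8) : ℝ)) :=
        mul_le_mul_of_nonneg_left hleft (by positivity)
    _ = _ := by ring

end Pool.Agent.H96.CV
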