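import Pool.Agent.H96.CV.Basic
import Pool.Agent.H25.HK.HE

/-! ZK: the zeta function of `K`. -/

set_option autoImplicit false

open NumberField NumberField.InfinitePlace NumberField.Units Complex Filter Topology MeasureTheory

namespace Pool.Agent.H96.CV

open Pool.Agent.H25.HK

open scoped Classical in
/-- the continuation -/
theorem zk_exists (hWP : Pool.Agent.H25.HK.T_WP) (hME : Pool.Agent.H25.HK.T_ME)
    (hCS : Pool.Agent.H25.HK.T_CS) (hDS : Pool.Agent.H25.HK.T_DS) (hDU : Pool.Agent.H25.HK.T_DU)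
    (K : Type) [Field K] [NumberField K] :
    ∃ E : ℂ → ℂ, Differentiable ℂ E ∧ ∀ s : ℂ, 1 < s.re → E s = (s - 1) * dedekindZeta K s := by
  obtain ⟨ι, hι, M, hM0, hM1, hM2⟩ := hCS K
  choose P hPf hPg hPk hPε hPf0 hPg0 using fun c => hWP K (M c) (hM0 c)
  obtain ⟨c0, hc0⟩ : ∃ c0 : ℂ, c0 = (torsionOrder K : ℂ) *
    ((2 : ℂ) ^ (nrRealPlaces K + nrComplexPlaces K))⁻¹ := ⟨_, rfl⟩
  have hc0' : c0 ≠ 0 := by
    rw [hc0]
    have h1 : (torsionOrder K : ℂ) ≠ 0 := by
      exact_mod_cast (torsionOrder_pos K).ne'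
    exact mul_ne_zero h1 (inv_ne_zero (pow_ne_zero _ two_ne_zero))
  obtain ⟨N, hN⟩ : ∃ N : ι → ℝ, N = fun c => (FractionalIdeal.absNorm (M c) : ℝ) := ⟨_, rfl⟩
  have hN0 : ∀ c, 0 < N c := fun c => by rw [hN]; exact (hDU K (M c) (hM0 c)).2.2.2.1
  -- the Mellin transforms
  have hΛ : ∀ c (s : ℂ), 1 < s.re → (P c).Λ s = c0 * gK K s * ((N c : ℝ) : ℂ) ^ (-s) *
      ∑' I : {I : Ideal (𝓞 K) // Pri K (M c) I}, (Ideal.absNorm I.1 : ℂ) ^ (-s) := by
    intro c s hs
    have h1 := ((P c).hasMellin (s := s) (by rw [hPk]; exact hs)).2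
    rw [← h1]
    have h2 : (fun x => (P c).f x - (P c).f₀) =
        fun t => (ff K (M c) t : ℂ) - (volume.real (Fd K) : ℝ) := by
      funext t
      rw [hPf, hPf0]
    rw [h2, hME K (M c) (hM0 c) s hs, hc0, hN]
  have hcancel : ∀ (x : ℝ) (s : ℂ), 0 < x → ((x : ℝ) : ℂ) ^ s * ((x : ℝ) : ℂ) ^ (-s) = 1 := by
    intro x s hx
    rw [← cpow_add _ _ (by exact_mod_cast hx.ne'), add_neg_cancel, cpow_zero]
  have hΛK1 : ∀ s : ℂ, 1 < s.re → ∑ c, ((N c : ℝ) : ℂ) ^ s * (P c).Λ s =
      c0 * gK K s * dedekindZeta K s := by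
    intro s hs
    obtain ⟨h1, h2⟩ := hDS K s hs
    rw [h2, ← sum_partition (fun I : Ideal (𝓞 K) => I ≠ ⊥) (fun c I => Pri K (M c) I)
      (fun c I h => h.1) hM1 (fun I => (Ideal.absNorm I : ℂ) ^ (-s)) h1, Finset.mul_sum]
    refine Finset.sum_congr rfl fun c _ => ?_
    rw [hΛ c s hs]
    have h3 := hcancel (N c) s (hN0 c)
    calc ((N c : ℝ) : ℂ) ^ s * (c0 * gK K s * ((N c : ℝ) : ℂ) ^ (-s) *
          ∑' I : {I : Ideal (𝓞 K) // Pri K (M c) I}, (Ideal.absNorm I.1 : ℂ) ^ (-s))
        = (((N c : ℝ) : ℂ) ^ s * ((N c : ℝ) : ℂ) ^ (-s)) * (c0 * gK K s *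
          ∑' I : {I : Ideal (𝓞 K) // Pri K (M c) I}, (Ideal.absNorm I.1 : ℂ) ^ (-s)) := by ring
      _ = _ := by rw [h3, one_mul]
  -- the entire function
  set G : ℂ → ℂ := fun s => (gK K s)⁻¹ * ∑ c, ((N c : ℝ) : ℂ) ^ s *
    (s * (s - 1) * (P c).Λ₀ s - (s - 1) * (P c).f₀ + s * ((P c).ε * (P c).g₀)) with hG
  have hGd : Differentiable ℂ G := by
    refine (gK_inv_differentiable K).mul ?_
    refine Differentiable.fun_sum fun c _ => ?_
    have h1 : Differentiable ℂ (fun s : ℂ => ((N c : ℝ) : ℂ) ^ s) :=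
      (differentiable_id).const_cpow (Or.inl (by exact_mod_cast (hN0 c).ne'))
    have h2 := (P c).differentiable_Λ₀
    fun_prop
  have hgK0 : (gK K 0)⁻¹ = 0 := by
    have h1 : Gammaℝ (0 : ℂ) = 0 := Gammaℝ_eq_zero_iff.2 ⟨0, by simp⟩
    unfold gK
    rw [Gammaℂ_eq, h1, zero_mul]
    have h2 : 0 < nrRealPlaces K + nrComplexPlaces K := by
      have h3 := card_add_two_mul_card_eq_rank K
      have h4 : 0 < Module.finrank ℚ K := Module.finrank_pos
      omega
    rcases Nat.eq_zero_or_pos (nrRealPlaces K) with h | h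
    · rw [zero_pow (show nrComplexPlaces K ≠ 0 by omega), mul_zero, inv_zero]
    · rw [zero_pow h.ne', zero_mul, inv_zero]
  have hG0 : G 0 = 0 := by
    simp only [hG]
    rw [hgK0, zero_mul]
  refine ⟨fun s => c0⁻¹ * dslope G 0 s, ?_, fun s hs => ?_⟩
  · have h1 : DifferentiableOn ℂ (dslope G 0) Set.univ :=
      (Complex.differentiableOn_dslope univ_mem).2 hGd.differentiableOn
    exact (differentiableOn_univ.1 h1).const_mul _
  · have hs0 : s ≠ 0 := by
      rintro rfl
      simp at hs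
      linarith
    have hs1 : s - 1 ≠ 0 := by
      intro h
      have := congrArg Complex.re h
      simp at this
      linarith
    have h1 : dslope G 0 s = s⁻¹ * G s := by
      rw [dslope_of_ne _ hs0, slope_def_field, hG0, sub_zero, sub_zero, div_eq_inv_mul]
    have h2 : ∑ c, ((N c : ℝ) : ℂ) ^ s *
        (s * (s - 1) * (P c).Λ₀ s - (s - 1) * (P c).f₀ + s * ((P c).ε * (P c).g₀)) =
        s * (s - 1) * ∑ c, ((N c : ℝ) : ℂ) ^ s * (P c).Λ s := by
      rw [Finset.mul_sum]
      refine Finset.sum_congr rfl fun c _ => ?_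
      have h6 : (P c).Λ₀ s = (P c).Λ s + (1 / s) • (P c).f₀ +
          ((P c).ε / ((P c).k - s)) • (P c).g₀ := (P c).Λ₀_eq s
      have hs2 : (1 : ℂ) - s ≠ 0 := by
        intro h
        exact hs1 (by linear_combination -h)
      rw [h6, hPk, ofReal_one, smul_eq_mul, smul_eq_mul]
      field_simp
      ring
    simp only
    rw [h1]
    simp only [hG]
    rw [h2, hΛK1 s hs]
    have := gK_ne_of_re K hs
    field_simp

theorem Gammaℝ_conj' (s : ℂ) : Gammaℝ ((starRingEnd ℂ) s) = (starRingEnd ℂ) (Gammaℝ s) := by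
  unfold Gammaℝ
  rw [map_mul, ← Complex.Gamma_conj]
  have hpi : Complex.arg (Real.pi : ℂ) ≠ Real.pi := by
    rw [Complex.arg_ofReal_of_nonneg Real.pi_pos.le]
    exact Real.pi_pos.ne
  congr 1
  · have h1 : -(starRingEnd ℂ) s / 2 = (starRingEnd ℂ) (-s / 2) := by
      rw [map_div₀, map_neg, map_ofNat]
    rw [h1, Complex.cpow_conj _ _ hpi, Complex.conj_ofReal]
  · rw [map_div₀, map_ofNat]

theorem gK_conj (K : Type) [Field K] [NumberField K] (s : ℂ) :
    gK K ((starRingEnd ℂ) s) = (starRingEnd ℂ) (gK K s) := by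
  unfold gK
  rw [Gammaℂ_eq, Gammaℂ_eq, map_mul, map_pow, map_pow, map_mul, Gammaℝ_conj']
  congr 3
  rw [← Gammaℝ_conj', map_add, map_one]

theorem pf_ZK (hWP : Pool.Agent.H25.HK.T_WP) (hME : Pool.Agent.H25.HK.T_ME)
    (hCS : Pool.Agent.H25.HK.T_CS) (hDS : Pool.Agent.H25.HK.T_DS) (hDU : Pool.Agent.H25.HK.T_DU)
    (hHE : Pool.Agent.H25.HK.T_HE) (hGW : Pool.Agent.H25.HK.T_GW) :
    Pool.Agent.H37.CV.T_ZK := by
  intro K _ _
  obtain ⟨E, hE, hE1⟩ := zk_exists hWP hME hCS hDS hDU K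
  have hnm : ∀ (I : Pool.Agent.H37.CV.NI K) (s : ℂ),
      ((Pool.Agent.H37.CV.nm I.1 : ℝ) : ℂ) ^ (-s) = (Ideal.absNorm I.1 : ℂ) ^ (-s) := by
    intro I s
    unfold Pool.Agent.H37.CV.nm
    rw [Complex.ofReal_natCast]
  refine ⟨E, hE, fun s hs => ⟨?_, ?_⟩, ?_, fun b => ?_⟩
  · simpa only [hnm] using (hDS K s hs).1
  · rw [hE1 s hs, (hDS K s hs).2]
    simp only [hnm]
  · -- the value at one
    have h1 := tendsto_sub_one_mul_dedekindZeta_nhdsGT K
    have h2 : Tendsto (fun s : ℝ => E s) (𝓝[>] 1) (𝓝 (E 1)) := by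
      have h3 : Tendsto (fun s : ℝ => E s) (𝓝 1) (𝓝 (E ((1 : ℝ) : ℂ))) :=
        (hE.continuous.comp Complex.continuous_ofReal).tendsto 1
      rw [Complex.ofReal_one] at h3
      exact h3.mono_left nhdsWithin_le_nhds
    have h3 : (fun s : ℝ => E s) =ᶠ[𝓝[>] 1] fun s : ℝ => ((s : ℂ) - 1) * dedekindZeta K s := by
      filter_upwards [self_mem_nhdsWithin] with s hs
      exact hE1 s (by simpa using hs)
    exact tendsto_nhds_unique (h2.congr' h3) h1
  · -- growth
    obtain ⟨Z, hZ, hFE, hBd⟩ := hHE K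
    obtain ⟨C₁, hC₁0, hC₁⟩ := hGW K Z hZ hFE hBd b
    -- the conjugate function
    set Z' : ℂ → ℂ := fun s => (starRingEnd ℂ) (Z ((starRingEnd ℂ) s)) with hZ'
    have hcomp : ∀ s, comp K Z' s = (starRingEnd ℂ) (comp K Z ((starRingEnd ℂ) s)) := by
      intro s
      unfold comp
      rw [map_mul, map_mul, ← gK_conj, Complex.conj_conj]
      congr 2
      have h0 : 0 ≤ |(discr K : ℝ)| := abs_nonneg _
      have harg : Complex.arg ((|(discr K : ℝ)| : ℝ) : ℂ) ≠ Real.pi := by
        rw [Complex.arg_ofReal_of_nonneg h0]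
        exact Real.pi_pos.ne
      have h1 : (starRingEnd ℂ) s / 2 = (starRingEnd ℂ) (s / 2) := by
        rw [map_div₀, map_ofNat]
      rw [h1, Complex.cpow_conj _ _ harg, Complex.conj_ofReal, Complex.conj_conj]
    have hZ'1 : IsZ K Z' := by
      refine ⟨fun s hs => ?_, fun s hs => ?_⟩
      · have h1 : DifferentiableAt ℂ Z ((starRingEnd ℂ) s) := hZ.1 _ (by simpa using hs)
        have h2 := h1.conj_conj
        rw [Complex.conj_conj] at h2
        exact h2
      · simp only [hZ']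
        rw [hZ.2 _ (by simpa using hs), (hDS K _ (by simpa using hs)).2, (hDS K s hs).2,
          Complex.conj_tsum]
        refine tsum_congr fun I => ?_
        have h0 : (0 : ℝ) ≤ (Ideal.absNorm I.1 : ℝ) := Nat.cast_nonneg _
        have harg : Complex.arg (Ideal.absNorm I.1 : ℂ) ≠ Real.pi := by
          rw [← Complex.ofReal_natCast, Complex.arg_ofReal_of_nonneg h0]
          exact Real.pi_pos.ne
        rw [← map_neg, Complex.cpow_conj _ _ harg, Complex.conj_conj, Complex.conj_natCast]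
    have hFE' : ∀ s : ℂ, s.im ≠ 0 → comp K Z' s = comp K Z' (1 - s) := by
      intro s hs
      rw [hcomp, hcomp, hFE _ (by simpa using hs), map_sub, map_one]
    have hBd' : ∀ b : ℝ, ∃ C : ℝ, ∀ s : ℂ, |s.re| ≤ b → 1 ≤ |s.im| → ‖comp K Z' s‖ ≤ C := by
      intro b
      obtain ⟨C, hC⟩ := hBd b
      refine ⟨C, fun s h1 h2 => ?_⟩
      rw [hcomp, RCLike.norm_conj]
      exact hC _ (by simpa using h1) (by simpa using h2)
    obtain ⟨C₂, hC₂0, hC₂⟩ := hGW K Z' hZ'1 hFE' hBd' b
    -- comparison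
    have hEZ : ∀ s : ℂ, s.im ≠ 0 → E s = (s - 1) * Z s := by
      have key : ∀ U : Set ℂ, IsOpen U → IsPreconnected U → (∀ s ∈ U, s.im ≠ 0) →
          (∃ z₀ ∈ U, 1 < z₀.re) → ∀ s ∈ U, E s = (s - 1) * Z s := by
        intro U hU hUc him hz
        obtain ⟨z₀, hz₀, hre⟩ := hz
        have h1 : DifferentiableOn ℂ E U := hE.differentiableOn
        have h2 : DifferentiableOn ℂ (fun s => (s - 1) * Z s) U := by
          intro s hs
          have h3 : DifferentiableAt ℂ (fun s : ℂ => s - 1) s := by fun_prop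
          exact (h3.mul (hZ.1 s (him s hs))).differentiableWithinAt
        exact (h1.analyticOnNhd hU).eqOn_of_preconnected_of_eventuallyEq (h2.analyticOnNhd hU) hUc
          hz₀ (by
            have h4 : {s : ℂ | 1 < s.re} ∈ 𝓝 z₀ :=
              (isOpen_lt continuous_const Complex.continuous_re).mem_nhds hre
            filter_upwards [h4] with s hs
            rw [hE1 s hs, hZ.2 s hs])
      intro s hs
      rcases lt_or_gt_of_ne hs with h | h
      · refine key {s : ℂ | s.im < 0} (isOpen_lt Complex.continuous_im continuous_const)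
          (convex_halfSpace_im_lt 0).isPreconnected (fun s hs => ne_of_lt hs)
          ⟨2 - I, by simp, by simp⟩ s h
      · refine key {s : ℂ | 0 < s.im} (isOpen_lt continuous_const Complex.continuous_im)
          (convex_halfSpace_im_gt 0).isPreconnected (fun s hs => ne_of_gt hs)
          ⟨2 + I, by simp, by simp⟩ s h
    -- the compact part
    have hcomp2 : ∃ C₃ : ℝ, ∀ s : ℂ, |s.re| ≤ b → |s.im| ≤ 1 → ‖E s‖ ≤ C₃ := by
      have hc : IsCompact (Metric.closedBall (0 : ℂ) (|b| + 1)) := isCompact_closedBall _ _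
      obtain ⟨C, hC⟩ := hc.exists_bound_of_continuousOn hE.continuous.continuousOn
      refine ⟨C, fun s h1 h2 => hC s ?_⟩
      rw [mem_closedBall_zero_iff]
      refine (Complex.norm_le_abs_re_add_abs_im s).trans ?_
      have := le_abs_self b
      linarith
    obtain ⟨C₃, hC₃⟩ := hcomp2
    set C : ℝ := |C₃| + (|b| + 2) * (C₁ + C₂) with hC
    refine ⟨C, 1 + (C₁ + C₂), fun s hs => ?_⟩
    have hb0 : |s.re| ≤ |b| := hs.trans (le_abs_self b)
    have hy0 : 0 ≤ |s.im| := abs_nonneg _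
    have hy1 : 1 ≤ 1 + |s.im| := by linarith
    have hexp : 0 ≤ 1 + (C₁ + C₂) := by positivity
    by_cases hy : |s.im| ≤ 1
    · calc ‖E s‖ ≤ C₃ := hC₃ s hs hy
        _ ≤ C * 1 := by
            rw [mul_one, hC]
            have h1 := le_abs_self C₃
            have h2 : 0 ≤ (|b| + 2) * (C₁ + C₂) := by positivity
            linarith
        _ ≤ C * (1 + |s.im|) ^ (1 + (C₁ + C₂)) := by
            refine mul_le_mul_of_nonneg_left (Real.one_le_rpow hy1 hexp) (by positivity)
    · push Not at hy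
      have him : s.im ≠ 0 := by
        intro h
        rw [h, abs_zero] at hy
        linarith
      have hZb : ‖Z s‖ ≤ (C₁ + C₂) * (1 + |s.im|) ^ (C₁ + C₂) := by
        rcases lt_or_gt_of_ne him with h | h
        · have h1 := hC₂ ((starRingEnd ℂ) s) (by simpa using hs) (by
            rw [Complex.conj_im]
            rw [abs_of_neg h] at hy
            exact hy.le)
          simp only [hZ', Complex.conj_conj, RCLike.norm_conj] at h1
          refine h1.trans ?_
          have h2 : ((starRingEnd ℂ) s).im = |s.im| := by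
            rw [Complex.conj_im, abs_of_neg h]
          rw [h2]
          calc C₂ * |s.im| ^ C₂ ≤ (C₁ + C₂) * (1 + |s.im|) ^ C₂ := by
                refine mul_le_mul (by linarith) (Real.rpow_le_rpow hy0 (by linarith) hC₂0.le)
                  (by positivity) (by positivity)
            _ ≤ (C₁ + C₂) * (1 + |s.im|) ^ (C₁ + C₂) := by
                refine mul_le_mul_of_nonneg_left ?_ (by positivity)
                exact Real.rpow_le_rpow_of_exponent_le hy1 (by linarith)
        · have h1 := hC₁ s hs (by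
            rw [abs_of_pos h] at hy
            exact hy.le)
          refine h1.trans ?_
          have h2 : s.im ≤ |s.im| := le_abs_self _
          calc C₁ * s.im ^ C₁ ≤ (C₁ + C₂) * (1 + |s.im|) ^ C₁ := by
                refine mul_le_mul (by linarith) (Real.rpow_le_rpow h.le (by linarith) hC₁0.le)
                  (by positivity) (by positivity)
            _ ≤ (C₁ + C₂) * (1 + |s.im|) ^ (C₁ + C₂) := by
                refine mul_le_mul_of_nonneg_left ?_ (by positivity)
                exact Real.rpow_le_rpow_of_exponent_le hy1 (by linarith)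
      have hs1 : ‖s - 1‖ ≤ (|b| + 2) * (1 + |s.im|) := by
        refine (norm_sub_le _ _).trans ?_
        rw [norm_one]
        have h1 := Complex.norm_le_abs_re_add_abs_im s
        have h2 : 0 ≤ |b| * |s.im| := by positivity
        nlinarith
      rw [hEZ s him, norm_mul]
      calc ‖s - 1‖ * ‖Z s‖ ≤ ((|b| + 2) * (1 + |s.im|)) *
            ((C₁ + C₂) * (1 + |s.im|) ^ (C₁ + C₂)) :=
            mul_le_mul hs1 hZb (norm_nonneg _) (by positivity)
        _ = ((|b| + 2) * (C₁ + C₂)) * (1 + |s.im|) ^ (1 + (C₁ + C₂)) := by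
            rw [Real.rpow_add (by linarith) 1 (C₁ + C₂), Real.rpow_one]
            ring
        _ ≤ C * (1 + |s.im|) ^ (1 + (C₁ + C₂)) := by
            refine mul_le_mul_of_nonneg_right ?_ (by positivity)
            rw [hC]
            linarith [abs_nonneg C₃]

end Pool.Agent.H96.CV
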