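import Pool.Agent.H37.CV.Targets

/-! Basic facts for the board cmv. -/

set_option autoImplicit false

open NumberField NumberField.InfinitePlace Complex Filter Topology MeasureTheory

namespace Pool.Agent.H96.CV

open Pool.Agent.H37.CV Pool.Agent.H28.RC Pool.Agent.H25.HK

variable {K : Type} [Field K] [NumberField K]

theorem one_le_nm {I : Ideal (𝓞 K)} (hI : I ≠ ⊥) : 1 ≤ nm I := by
  unfold nm
  have : Ideal.absNorm I ≠ 0 := fun h => hI (Ideal.absNorm_eq_zero_iff.1 h)
  exact_mod_cast Nat.one_le_iff_ne_zero.2 this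

theorem nm_pos {I : Ideal (𝓞 K)} (hI : I ≠ ⊥) : 0 < nm I := lt_of_lt_of_le one_pos (one_le_nm hI)

theorem two_le_np (P : PrI K) : 2 ≤ np P := by
  unfold np nm
  have h0 : Ideal.absNorm P.1 ≠ 0 := fun h => P.2.2 (Ideal.absNorm_eq_zero_iff.1 h)
  have h1 : Ideal.absNorm P.1 ≠ 1 := fun h => P.2.1.ne_top (Ideal.absNorm_eq_one_iff.1 h)
  have : 2 ≤ Ideal.absNorm P.1 := by omega
  exact_mod_cast this

theorem np_pos (P : PrI K) : 0 < np P := by linarith [two_le_np P]

theorem nS_pos (S : Finset (PrI K)) : 0 < nS np S := Finset.prod_pos fun P _ => np_pos P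

theorem one_le_nS (S : Finset (PrI K)) : 1 ≤ nS np S := by
  unfold nS
  refine Finset.prod_induction np (fun x => 1 ≤ x) (fun a b ha hb => ?_) le_rfl
    fun P _ => by linarith [two_le_np P]
  nlinarith

open scoped Classical in
theorem mem_DM {M : ℝ} {S : Finset (PrI K)} : S ∈ DM K M ↔ S ⊆ PM K M ∧ nS np S ≤ M := by
  unfold DM DS
  rw [Finset.mem_filter, Finset.mem_powerset]

end Pool.Agent.H96.CV
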